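import Pool.Agent.H87.RS.GC
import Pool.Agent.H96.T.Fin

/-!
# The global data of a cover of a projective space branched along hyperplanes
-/

set_option autoImplicit false
set_option linter.unusedSectionVars false

namespace Pool.Agent.H87.RS

open Pool.Agent.H96.W
open Pool.Agent.H96.S (FD trdeg_zmod')
open Pool.Agent.H96.T (SS exists_fd)
open Pool.Agent.H19.OG (HasCharts)

/-- The homogeneous coordinates. -/
def hc {K : Type} [Field K] {n : ℕ} (x : Fin n → K) : Fin (n + 1) → K := Fin.cons 1 x

theorem li_hc {F K : Type} [Field F] [Field K] [Algebra F K] {n : ℕ} {x : Fin n → K}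
    (hx : AlgebraicIndependent F x) : LinearIndependent F (hc x) := by
  classical
  rw [Fintype.linearIndependent_iff]
  intro g hg
  set P : MvPolynomial (Fin n) F := MvPolynomial.C (g 0) +
    ∑ i : Fin n, MvPolynomial.C (g i.succ) * MvPolynomial.X i with hP
  have h1 : MvPolynomial.aeval x P = 0 := by
    rw [hP, map_add, map_sum, MvPolynomial.aeval_C, ← hg, Fin.sum_univ_succ]
    congr 1
    · show algebraMap F K (g 0) = g 0 • (1 : K)
      rw [Algebra.smul_def, mul_one]
    · refine Finset.sum_congr rfl fun i _ => ?_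
      show MvPolynomial.aeval x (MvPolynomial.C (g i.succ) * MvPolynomial.X i) = g i.succ • x i
      rw [map_mul, MvPolynomial.aeval_C, MvPolynomial.aeval_X, Algebra.smul_def]
  have h2 : P = 0 := hx.eq_zero_of_aeval_eq_zero P h1
  intro i
  refine Fin.cases ?_ (fun i => ?_) i
  · have h3 := congrArg (MvPolynomial.coeff 0) h2
    rw [hP, MvPolynomial.coeff_add, MvPolynomial.coeff_C, if_pos rfl, MvPolynomial.coeff_sum,
      Finset.sum_eq_zero fun i _ => ?_, add_zero, MvPolynomial.coeff_zero] at h3
    · exact h3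
    · rw [MvPolynomial.coeff_C_mul, MvPolynomial.coeff_X, if_neg, mul_zero]
      intro h
      have := DFunLike.congr_fun h i
      simp at this
  · have h3 := congrArg (MvPolynomial.coeff (Finsupp.single i 1)) h2
    rw [hP, MvPolynomial.coeff_add, MvPolynomial.coeff_C, if_neg (fun h => by
      have := DFunLike.congr_fun h i
      simp at this), zero_add, MvPolynomial.coeff_sum, Finset.sum_eq_single i,
      MvPolynomial.coeff_C_mul, MvPolynomial.coeff_X, if_pos rfl, mul_one,
      MvPolynomial.coeff_zero] at h3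
    · exact h3
    · intro j _ hj
      rw [MvPolynomial.coeff_C_mul, MvPolynomial.coeff_X, if_neg, mul_zero]
      intro h
      exact hj (Finsupp.single_left_injective one_ne_zero h)
    · intro h; exact absurd (Finset.mem_univ _) h

section Forms

variable {F : Type} [Field F] {n m : ℕ}

/-- The forms together with the coordinates. -/
def cfs (c : Fin m → Fin (n + 1) → F) : Fin (n + 1) ⊕ Fin m → Fin (n + 1) → F :=
  Sum.elim (fun i => Pi.single i 1) c

theorem cfs_ne {c : Fin m → Fin (n + 1) → F} (hc : ∀ j, c j ≠ 0) (μ : Fin (n + 1) ⊕ Fin m) :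
    cfs c μ ≠ 0 := by
  rcases μ with i | j
  · intro h
    have h1 := congrFun h i
    rw [show cfs c (Sum.inl i) i = (Pi.single i 1 : Fin (n + 1) → F) i from rfl,
      Pi.single_eq_same] at h1
    exact one_ne_zero h1
  · exact hc j

theorem dt_cfs (c : Fin m → Fin (n + 1) → F) : dt (cfs c) Sum.inl ≠ 0 := by
  have h1 : (Matrix.of fun i => cfs c (Sum.inl i)) = (1 : Matrix (Fin (n + 1)) (Fin (n + 1)) F) := by
    ext i j
    rw [Matrix.of_apply, Matrix.one_apply]
    show (Pi.single i 1 : Fin (n + 1) → F) j = _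
    rw [Pi.single_apply]
    simp only [eq_comm]
  rw [dt, h1, Matrix.det_one]
  exact one_ne_zero

/-- The exponents of the homogeneous Kummer relations. -/
def ews {r : ℕ} (a : Fin r → Fin m → ℤ) (b : Fin r) : Fin (n + 1) ⊕ Fin m → ℤ :=
  Sum.elim (Pi.single 0 (-∑ j, a b j)) (a b)

theorem ews_sum {r : ℕ} (a : Fin r → Fin m → ℤ) (b : Fin r) :
    ∑ μ, (ews a b : Fin (n + 1) ⊕ Fin m → ℤ) μ = 0 := by
  rw [Fintype.sum_sum_type]
  have h1 : ∑ i : Fin (n + 1), (ews a b : Fin (n + 1) ⊕ Fin m → ℤ) (Sum.inl i) =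
      -∑ j, a b j := by
    rw [Finset.sum_eq_single 0]
    · show (Pi.single 0 (-∑ j, a b j) : Fin (n + 1) → ℤ) 0 = _
      rw [Pi.single_eq_same]
    · intro i _ hi
      show (Pi.single 0 (-∑ j, a b j) : Fin (n + 1) → ℤ) i = _
      rw [Pi.single_eq_of_ne hi]
    · intro h; exact absurd (Finset.mem_univ _) h
  rw [h1]
  show -∑ j, a b j + ∑ j, a b j = 0
  ring

end Forms

section Values

variable {F K : Type} [Field F] [Field K] [Algebra F K] {n m : ℕ}

/-- A polynomial of degree at most `1`. -/
noncomputable def lf (x : Fin n → K) (c : Fin (n + 1) → F) : K :=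
  algebraMap F K (c 0) + ∑ i, algebraMap F K (c i.succ) * x i

theorem fm_inl (c : Fin m → Fin (n + 1) → F) (x : Fin n → K) (i : Fin (n + 1)) :
    fm (cfs c) (hc x) (Sum.inl i) = hc x i := by
  rw [fm, Finset.sum_eq_single i]
  · show algebraMap F K ((Pi.single i 1 : Fin (n + 1) → F) i) * _ = _
    rw [Pi.single_eq_same, map_one, one_mul]
  · intro j _ hj
    show algebraMap F K ((Pi.single i 1 : Fin (n + 1) → F) j) * _ = _
    rw [Pi.single_eq_of_ne hj, map_zero, zero_mul]
  · intro h; exact absurd (Finset.mem_univ _) h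

theorem fm_inr (c : Fin m → Fin (n + 1) → F) (x : Fin n → K) (j : Fin m) :
    fm (cfs c) (hc x) (Sum.inr j) = lf x (c j) := by
  rw [fm, Fin.sum_univ_succ, lf]
  show algebraMap F K (c j 0) * 1 + ∑ i : Fin n, algebraMap F K (c j i.succ) * x i = _
  rw [mul_one]

theorem mon_ews {r : ℕ} (c : Fin m → Fin (n + 1) → F) (x : Fin n → K) (a : Fin r → Fin m → ℤ)
    (b : Fin r) : mon (fm (cfs c) (hc x)) (ews a b) = ∏ j, lf x (c j) ^ a b j := by
  rw [mon, Fintype.prod_sum_type]
  have h1 : ∏ i : Fin (n + 1), fm (cfs c) (hc x) (Sum.inl i) ^ (ews a b (Sum.inl i)) = 1 := by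
    refine Finset.prod_eq_one fun i _ => ?_
    rw [fm_inl]
    refine Fin.cases ?_ (fun i => ?_) i
    · show (1 : K) ^ _ = 1
      rw [one_zpow]
    · show _ ^ (Pi.single 0 (-∑ j, a b j) : Fin (n + 1) → ℤ) i.succ = 1
      rw [Pi.single_eq_of_ne (Fin.succ_ne_zero i), zpow_zero]
  rw [h1, one_mul]
  refine Finset.prod_congr rfl fun j _ => ?_
  rw [fm_inr]
  rfl

end Values

/-- **Models of abelian covers of projective spaces branched along hyperplanes.** -/
theorem hasCharts_arr (p : ℕ) [Fact p.Prime] (k : Type) [Field k] [Finite k] [CharP k p]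
    (K : Type) [Field K] [Algebra k K] (F : IntermediateField k K)
    (hF : (F.FG ∧ Algebra.trdeg k F = 1) ∨ (SS p F ∧ Algebra.trdeg k F = 2))
    {n m r : ℕ} (x : Fin n → K) (hx : AlgebraicIndependent F x) (c : Fin m → Fin (n + 1) → F)
    (hc0 : ∀ j, c j ≠ 0) (w : Fin r → K) (N : Fin r → ℕ) (a : Fin r → Fin m → ℤ)
    (hN : ∀ b, ¬ p ∣ N b) (hw : ∀ b, w b ^ N b = ∏ j, lf x (c j) ^ a b j)
    (hgen : F ⊔ IntermediateField.adjoin k (Set.range x ∪ Set.range w) = ⊤) :
    HasCharts K := by
  classical
  let _ : Algebra (ZMod p) k := ZMod.algebra k p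
  have hcF : CharP F p := charP_of_injective_algebraMap (algebraMap k F).injective p
  have hcK : CharP K p := charP_of_injective_algebraMap (algebraMap k K).injective p
  let i0 : Algebra (ZMod p) F := ZMod.algebra F p
  have hst : IsScalarTower (ZMod p) k F := IsScalarTower.of_algebraMap_eq' (Subsingleton.elim _ _)
  obtain ⟨rh, ⟨e⟩⟩ := Finite.exists_equiv_fin
    ((Fin (n + 1) → Fin (n + 1) ⊕ Fin m) × (Fin (n + 1) ⊕ Fin m) × Fin (n + 1))
  set h : Fin rh → F := fun s => if co (cfs c) (e.symm s).1 (e.symm s).2.2 (e.symm s).2.1 = 0 then 1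
    else co (cfs c) (e.symm s).1 (e.symm s).2.2 (e.symm s).2.1 with hh
  have hh0 : ∀ s, h s ≠ 0 := by
    intro s
    rw [hh]
    show (if co (cfs c) (e.symm s).1 (e.symm s).2.2 (e.symm s).2.1 = 0 then 1
      else co (cfs c) (e.symm s).1 (e.symm s).2.2 (e.symm s).2.1) ≠ 0
    split_ifs with h1
    · exact one_ne_zero
    · exact h1
  obtain ⟨A, i1, i2, J, i3, d, on, hd, -, M₀, hM₀⟩ := exists_fd F false 0 h hh0 (by
    rcases hF with h1 | ⟨h1, h2⟩
    · exact Or.inl h1
    · exact Or.inr ⟨h1, h2, fun h => absurd h (by decide)⟩)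
  let _ : Algebra (ZMod p) K := ZMod.algebra K p
  have hstK : @IsScalarTower (ZMod p) F K i0.toSMul _ _ :=
    IsScalarTower.of_algebraMap_eq' (Subsingleton.elim _ _)
  have hstk : IsScalarTower (ZMod p) k K :=
    IsScalarTower.of_algebraMap_eq' (Subsingleton.elim _ _)
  set M := max M₀ (∑ b : Fin r, ∑ μ, ((ews a b : Fin (n + 1) ⊕ Fin m → ℤ) μ).natAbs) with hM
  have hfd : Nonempty (FD p false on F A J d rh M 0 h) := hM₀ M (le_max_left _ _)
  have hl0 : ∀ j, lf x (c j) ≠ 0 := fun j => by
    rw [← fm_inr]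
    exact fm_ne (li_hc hx) (cfs_ne hc0 _)
  have hN0 : ∀ b, N b ≠ 0 := fun b h4 => hN b (by rw [h4]; exact dvd_zero p)
  have hw0 : ∀ b, w b ≠ 0 := by
    intro b hb
    have h1 := hw b
    have h2 : ∏ j, lf x (c j) ^ a b j ≠ 0 :=
      Finset.prod_ne_zero_iff.mpr fun j _ => zpow_ne_zero _ (hl0 j)
    rw [hb, zero_pow (hN0 b)] at h1
    exact h2 h1.symm
  let G : GD p K F A J (Fin (n + 1) ⊕ Fin m) d (n + 1) r rh N (ews a) M :=
    { on := on
      f := 0
      h := h
      fd := hfd.some
      cf := cfs c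
      cf0 := cfs_ne hc0
      X := hc x
      li := li_hc hx
      ex := ⟨Sum.inl, dt_cfs c⟩
      idx := fun β μ i => e (β, μ, i)
      hidx := fun β μ i _ h2 => by
        rw [hh]
        show (if co (cfs c) (e.symm (e (β, μ, i))).1 (e.symm (e (β, μ, i))).2.2
          (e.symm (e (β, μ, i))).2.1 = 0 then 1 else
          co (cfs c) (e.symm (e (β, μ, i))).1 (e.symm (e (β, μ, i))).2.2
          (e.symm (e (β, μ, i))).2.1) = _
        rw [e.symm_apply_apply, if_neg h2]
      w := w
      w0 := hw0
      Nw0 := hN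
      KM := fun b => by rw [hw, mon_ews]
      eM := fun b μ => by
        rw [Int.abs_eq_natAbs]
        refine Int.ofNat_le.mpr (le_trans ?_ (le_max_right _ _))
        exact (Finset.single_le_sum (f := fun μ =>
            ((ews a b : Fin (n + 1) ⊕ Fin m → ℤ) μ).natAbs) (fun _ _ => Nat.zero_le _)
            (Finset.mem_univ μ)).trans
          (Finset.single_le_sum (f := fun b => ∑ μ,
            ((ews a b : Fin (n + 1) ⊕ Fin m → ℤ) μ).natAbs) (fun _ _ => Nat.zero_le _)
            (Finset.mem_univ b))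
      eS := ews_sum a
      gen := by
        intro R hinv hFR hfR hwR
        let R' : IntermediateField k K :=
          { carrier := R
            mul_mem' := fun ha hb => R.mul_mem ha hb
            one_mem' := R.one_mem
            add_mem' := fun ha hb => R.add_mem ha hb
            zero_mem' := R.zero_mem
            algebraMap_mem' := fun a => hFR (algebraMap k F a)
            inv_mem' := by
              intro x hx
              by_cases hx0 : x = 0
              · rw [hx0, inv_zero]; exact R.zero_mem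
              · exact hinv x hx hx0 }
        have h1 : (⊤ : IntermediateField k K) ≤ R' := by
          rw [← hgen]
          refine sup_le (fun w hw => hFR ⟨w, hw⟩) ?_
          rw [IntermediateField.adjoin_le_iff]
          rintro _ (⟨i, rfl⟩ | ⟨b, rfl⟩)
          · have h2 := hfR (Sum.inl i.succ) (Sum.inl 0)
            rw [fm_inl, fm_inl] at h2
            have h3 : (hc x i.succ : K) / hc x 0 = x i := div_one _
            rw [h3] at h2
            exact h2
          · exact hwR b
        rw [eq_top_iff]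
        intro x _
        exact h1 (show x ∈ (⊤ : IntermediateField k K) from trivial) }
  refine G.hasCharts (Nat.le_add_left 1 n) ?_
  rw [trdeg_zmod' p k K, ← _root_.trdeg_add_eq k F (A := K), ← hd]
  have h1 : ((n : ℕ) : Cardinal.{0}) ≤ Algebra.trdeg F K := by
    have := hx.cardinalMk_le_trdeg
    rwa [Cardinal.mk_fin] at this
  rw [Nat.add_sub_cancel, Nat.cast_add]
  gcongr

end Pool.Agent.H87.RS
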