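import Mathlib

/-!
# Bases of minimal volume
-/

set_option autoImplicit false
set_option linter.unusedSectionVars false

namespace Pool.Agent.H87.RS

open Matrix

variable {F K : Type} [Field F] [Field K] [Algebra F K] {Λ : Type} {m : ℕ}

/-- The determinant of a tuple of forms. -/
noncomputable def dt (cf : Λ → Fin m → F) (β : Fin m → Λ) : F := (Matrix.of fun i => cf (β i)).det

/-- The coefficients of a form in terms of a tuple of forms. -/
noncomputable def co (cf : Λ → Fin m → F) (β : Fin m → Λ) (i : Fin m) (μ : Λ) : F :=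
  ((Matrix.of fun i => cf (β i)).updateRow i (cf μ)).det / dt cf β

theorem dt_update (cf : Λ → Fin m → F) (β : Fin m → Λ) (hβ : dt cf β ≠ 0) (i : Fin m) (μ : Λ) :
    dt cf (Function.update β i μ) = co cf β i μ * dt cf β := by
  rw [co, div_mul_cancel₀ _ hβ, dt]
  congr 1
  ext a b
  rw [Matrix.of_apply, Matrix.updateRow_apply, Matrix.of_apply]
  by_cases h : a = i
  · rw [if_pos h, h, Function.update_self]
  · rw [if_neg h, Function.update_of_ne h]

theorem expand_co (cf : Λ → Fin m → F) (β : Fin m → Λ) (hβ : dt cf β ≠ 0) (μ : Λ) (j : Fin m) :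
    cf μ j = ∑ i, co cf β i μ * cf (β i) j := by
  set C : Matrix (Fin m) (Fin m) F := Matrix.of fun i => cf (β i) with hC
  have h1 := congrFun (Matrix.mulVec_cramer Cᵀ (cf μ)) j
  rw [Matrix.det_transpose, Pi.smul_apply, smul_eq_mul, Matrix.mulVec, dotProduct] at h1
  have h2 : C.det = dt cf β := rfl
  have h3 : ∑ i, co cf β i μ * cf (β i) j = (dt cf β)⁻¹ * ∑ i, Cᵀ j i * Cᵀ.cramer (cf μ) i := by
    rw [Finset.mul_sum]
    refine Finset.sum_congr rfl fun i _ => ?_
    rw [Matrix.cramer_transpose_apply, co]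
    show (C.updateRow i (cf μ)).det / dt cf β * cf (β i) j =
      (dt cf β)⁻¹ * (cf (β i) j * (C.updateRow i (cf μ)).det)
    ring
  rw [h3, h1, h2, ← mul_assoc, inv_mul_cancel₀ hβ, one_mul]

theorem inj_of_dt (cf : Λ → Fin m → F) {β : Fin m → Λ} (hβ : dt cf β ≠ 0) :
    Function.Injective β := by
  intro i j hij
  by_contra hne
  apply hβ
  exact Matrix.det_zero_of_row_eq hne (by
    show cf (β i) = cf (β j)
    rw [hij])

/-- The forms. -/
noncomputable def fm (cf : Λ → Fin m → F) (X : Fin m → K) (μ : Λ) : K :=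
  ∑ j, algebraMap F K (cf μ j) * X j

theorem fm_ne {cf : Λ → Fin m → F} {X : Fin m → K} (hX : LinearIndependent F X)
    {μ : Λ} (hμ : cf μ ≠ 0) : fm cf X μ ≠ 0 := by
  intro h
  apply hμ
  funext j
  rw [Fintype.linearIndependent_iff] at hX
  refine hX (cf μ) ?_ j
  rw [fm] at h
  rw [← h]
  exact Finset.sum_congr rfl fun j _ => by rw [Algebra.smul_def]

theorem fm_expand (cf : Λ → Fin m → F) (X : Fin m → K) (β : Fin m → Λ) (hβ : dt cf β ≠ 0)
    (μ : Λ) : fm cf X μ = ∑ i, algebraMap F K (co cf β i μ) * fm cf X (β i) := by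
  have h1 : ∀ i, algebraMap F K (co cf β i μ) * fm cf X (β i) =
      ∑ j, algebraMap F K (co cf β i μ * cf (β i) j) * X j := by
    intro i
    rw [fm, Finset.mul_sum]
    exact Finset.sum_congr rfl fun j _ => by rw [map_mul]; ring
  rw [Finset.sum_congr rfl fun i _ => h1 i, Finset.sum_comm, fm]
  refine Finset.sum_congr rfl fun j _ => ?_
  rw [← Finset.sum_mul, ← map_sum, ← expand_co cf β hβ μ j]

variable (V : ValuationSubring K)

/-- **Bases of minimal volume.** -/
theorem exists_minimal [Finite Λ] (cf : Λ → Fin m → F) {X : Fin m → K}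
    (hX : LinearIndependent F X) (hcf : ∀ μ, cf μ ≠ 0) (hex : ∃ β, dt cf β ≠ 0) :
    ∃ β : Fin m → Λ, dt cf β ≠ 0 ∧ ∀ i μ, V.valuation (algebraMap F K (co cf β i μ)) *
      V.valuation (fm cf X (β i)) ≤ V.valuation (fm cf X μ) := by
  classical
  have := Fintype.ofFinite Λ
  have h0 : ∀ μ, V.valuation (fm cf X μ) ≠ 0 := fun μ => by
    rw [Ne, Valuation.zero_iff]; exact fm_ne hX (hcf μ)
  obtain ⟨β₀, hβ₀⟩ := hex
  obtain ⟨β, hβ, hmin⟩ := Finset.exists_min_image
    (Finset.univ.filter fun β : Fin m → Λ => dt cf β ≠ 0)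
    (fun β => (∏ i, V.valuation (fm cf X (β i))) / V.valuation (algebraMap F K (dt cf β)))
    ⟨β₀, Finset.mem_filter.mpr ⟨Finset.mem_univ _, hβ₀⟩⟩
  have hβ' := (Finset.mem_filter.mp hβ).2
  refine ⟨β, hβ', fun i μ => ?_⟩
  by_cases hc : co cf β i μ = 0
  · rw [hc, map_zero, map_zero, zero_mul]
    exact zero_le
  have hd' := dt_update cf β hβ' i μ
  have h1 := hmin (Function.update β i μ) (Finset.mem_filter.mpr ⟨Finset.mem_univ _, by
    rw [hd']; exact mul_ne_zero hc hβ'⟩)
  have hd0 : V.valuation (algebraMap F K (dt cf β)) ≠ 0 := by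
    rw [Ne, Valuation.zero_iff]; exact (map_ne_zero _).mpr hβ'
  have hc0 : V.valuation (algebraMap F K (co cf β i μ)) ≠ 0 := by
    rw [Ne, Valuation.zero_iff]; exact (map_ne_zero _).mpr hc
  set P := ∏ j ∈ Finset.univ.erase i, V.valuation (fm cf X (β j)) with hP
  have hP0 : P ≠ 0 := Finset.prod_ne_zero_iff.mpr fun j _ => h0 _
  have h2 : ∏ j, V.valuation (fm cf X (β j)) = V.valuation (fm cf X (β i)) * P :=
    (Finset.mul_prod_erase Finset.univ _ (Finset.mem_univ i)).symm
  have h3 : ∏ j, V.valuation (fm cf X (Function.update β i μ j)) =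
      V.valuation (fm cf X μ) * P := by
    rw [← Finset.mul_prod_erase Finset.univ _ (Finset.mem_univ i), Function.update_self]
    congr 1
    refine Finset.prod_congr rfl fun j hj => ?_
    rw [Function.update_of_ne (Finset.ne_of_mem_erase hj)]
  rw [h2, h3, hd', map_mul, map_mul, div_le_div_iff₀ (zero_lt_iff.mpr hd0)
    (mul_pos (zero_lt_iff.mpr hc0) (zero_lt_iff.mpr hd0))] at h1
  have h4 : V.valuation (algebraMap F K (co cf β i μ)) * V.valuation (fm cf X (β i)) *
      (P * V.valuation (algebraMap F K (dt cf β))) ≤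
      V.valuation (fm cf X μ) * (P * V.valuation (algebraMap F K (dt cf β))) := by
    calc _ = V.valuation (fm cf X (β i)) * P *
        (V.valuation (algebraMap F K (co cf β i μ)) * V.valuation (algebraMap F K (dt cf β))) := by
          simp only [mul_comm, mul_left_comm, mul_assoc]
      _ ≤ V.valuation (fm cf X μ) * P * V.valuation (algebraMap F K (dt cf β)) := h1
      _ = _ := by rw [mul_assoc]
  exact le_of_mul_le_mul_right h4 (mul_pos (zero_lt_iff.mpr hP0) (zero_lt_iff.mpr hd0))

/-- A form of maximal size. -/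
theorem exists_pivot [Finite Λ] [Nonempty Λ] (f : Λ → K) :
    ∃ μ, ∀ ν, V.valuation (f ν) ≤ V.valuation (f μ) :=
  Finite.exists_max fun ν => V.valuation (f ν)

end Pool.Agent.H87.RS
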