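import Pool.Agent.H87.RS.LReg
import Pool.Agent.H87.RS.Vol
import Pool.Agent.H96.S.GA

/-!
# The global data
-/

set_option autoImplicit false
set_option linter.unusedSectionVars false

namespace Pool.Agent.H87.RS

open MvPolynomial IsLocalRing Pool.Agent.H96.Reg Pool.Agent.H96.VL Pool.Agent.H96.W
open Pool.Agent.H96.S (Va Ndg FL FD cond_t cond_f gen_map mon_map aeval_am)

/-- The global data. -/
structure GD (p : ℕ) (K F : Type) [Field K] [Algebra (ZMod p) K] [Field F] [Algebra (ZMod p) F]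
    [Algebra F K] (A J Λ : Type) [Fintype A] [DecidableEq A] [Fintype Λ] [DecidableEq Λ]
    (d m r rh : ℕ) (Nw : Fin r → ℕ) (ew : Fin r → Λ → ℤ) (M : ℕ) where
  on : Bool
  f : F
  h : Fin rh → F
  fd : FD p false on F A J d rh M f h
  cf : Λ → Fin m → F
  cf0 : ∀ μ, cf μ ≠ 0
  X : Fin m → K
  li : LinearIndependent F X
  ex : ∃ β, dt cf β ≠ 0
  idx : (Fin m → Λ) → Λ → Fin m → Fin rh
  hidx : ∀ β μ i, dt cf β ≠ 0 → co cf β i μ ≠ 0 → h (idx β μ i) = co cf β i μ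
  w : Fin r → K
  w0 : ∀ c, w c ≠ 0
  Nw0 : ∀ c, ¬ p ∣ Nw c
  KM : ∀ c, w c ^ Nw c = mon (fm cf X) (ew c)
  eM : ∀ c μ, |ew c μ| ≤ M
  eS : ∀ c, ∑ μ, ew c μ = 0
  gen : ∀ R : Subring K, (∀ x ∈ R, x ≠ 0 → x⁻¹ ∈ R) → (∀ w : F, algebraMap F K w ∈ R) →
    (∀ μ ν, fm cf X μ / fm cf X ν ∈ R) → (∀ c, w c ∈ R) → R = ⊤

variable {p : ℕ} [Fact p.Prime] {K F : Type} [Field K] [Algebra (ZMod p) K] [Field F]
  [Algebra (ZMod p) F] [Algebra F K] [IsScalarTower (ZMod p) F K] {A J Λ : Type} [Fintype A]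
  [DecidableEq A] [Fintype Λ] [DecidableEq Λ] {d m r rh : ℕ} {Nw : Fin r → ℕ}
  {ew : Fin r → Λ → ℤ} {M : ℕ}

/-- The forms. -/
noncomputable abbrev GD.fo (G : GD p K F A J Λ d m r rh Nw ew M) (μ : Λ) : K := fm G.cf G.X μ

theorem GD.fo_ne (G : GD p K F A J Λ d m r rh Nw ew M) (μ : Λ) : G.fo μ ≠ 0 :=
  fm_ne G.li (G.cf0 μ)

/-- The local choices at a valuation. -/
structure GD.Lc (G : GD p K F A J Λ d m r rh Nw ew M) (V : ValuationSubring K) where
  fl : FL p false G.on d rh M G.f G.h G.fd.c G.fd.q G.fd.T G.fd.S (WV V F)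
  β : Fin m → Λ
  dβ : dt G.cf β ≠ 0
  min : ∀ i μ, V.valuation (algebraMap F K (co G.cf β i μ)) * V.valuation (G.fo (β i)) ≤
    V.valuation (G.fo μ)
  piv : Λ
  max : ∀ μ, V.valuation (G.fo μ) ≤ V.valuation (G.fo piv)

theorem mon_div {Λ : Type} [Fintype Λ] {K : Type} [Field K] (f : Λ → K) (a : K) (e : Λ → ℤ)
    (ha : a ≠ 0) (he : ∑ μ, e μ = 0) : mon (fun μ => f μ / a) e = mon f e := by
  rw [mon, mon]
  have h1 : ∏ μ, (f μ / a) ^ e μ = (∏ μ, f μ ^ e μ) / ∏ μ, a ^ e μ := by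
    rw [← Finset.prod_div_distrib]
    exact Finset.prod_congr rfl fun μ _ => div_zpow _ _ _
  have h2 : ∏ μ, a ^ e μ = a ^ ∑ μ, e μ := by
    classical
    refine Finset.induction_on (Finset.univ : Finset Λ) (by simp) fun μ s hμ ih => ?_
    rw [Finset.prod_insert hμ, Finset.sum_insert hμ, ih, zpow_add₀ ha]
  rw [h1, h2, he, zpow_zero, div_one]

open Classical in
/-- The local data of the cover. -/
noncomputable def GD.toLD (G : GD p K F A J Λ d m r rh Nw ew M) {V : ValuationSubring K}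
    (c : G.Lc V) : LD p V A Λ d m Nw ew M where
  n := c.fl.n
  y := fun s => algebraMap F K (c.fl.y s)
  G := c.fl.G
  D := c.fl.D
  l := c.fl.l
  t := fun a => algebraMap F K (c.fl.t a)
  vy := fun s => wv_le_one.mp (c.fl.loc.le _ (c.fl.yR s))
  rel := fun j => by rw [aeval_am, c.fl.rel, map_zero]
  vD := by rw [aeval_am]; exact wv_eq_one.mp c.fl.vD
  ndg := c.fl.ndg
  l0 := fun a h => by rw [c.fl.l0 a h, map_one]
  l1 := fun a x h => by
    obtain ⟨h1, h2, h3⟩ := c.fl.l1 a x h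
    exact ⟨wv_lt_one.mp h1, (map_ne_zero _).mpr h2, by rw [h3]⟩
  linj := c.fl.linj
  σ := fun μ => G.fo μ / G.fo c.piv
  σ0 := fun μ => div_ne_zero (G.fo_ne μ) (G.fo_ne c.piv)
  vσ := fun μ => by
    rw [map_div₀]
    exact div_le_one_of_le₀ (c.max μ) zero_le
  piv := c.piv
  σp := div_self (G.fo_ne c.piv)
  β := c.β
  βi := inj_of_dt G.cf c.dβ
  on := fun μ i => decide (co G.cf c.β i μ ≠ 0)
  q := fun μ i => c.fl.qv (G.idx c.β μ i)
  κ := fun μ i => c.fl.κ (G.idx c.β μ i)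
  vq := fun μ i => wv_eq_one.mp (c.fl.vq _)
  lin := fun μ => by
    rw [GD.fo, fm_expand G.cf G.X c.β c.dβ μ, Finset.sum_div]
    refine Finset.sum_congr rfl fun i _ => ?_
    by_cases h : co G.cf c.β i μ = 0
    · rw [cond_f (by rw [decide_eq_false_iff_not]; exact not_not.mpr h), h, map_zero, zero_mul,
        zero_div]
    · rw [cond_t (by rw [decide_eq_true_iff]; exact h), mon_map, ← map_mul, ← c.fl.eqh,
        G.hidx _ _ _ c.dβ h, mul_div_assoc]
  dom := fun μ i h => by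
    rw [decide_eq_true_iff] at h
    have h1 : V.valuation (mon (fun a => algebraMap F K (c.fl.t a)) (c.fl.κ (G.idx c.β μ i))) =
        V.valuation (algebraMap F K (co G.cf c.β i μ)) := by
      rw [← G.hidx _ _ _ c.dβ h, c.fl.eqh, map_mul, map_mul, wv_eq_one.mp (c.fl.vq _), one_mul,
        mon_map]
    rw [map_mul, h1, map_div₀, map_div₀, ← mul_div_assoc]
    exact div_le_div_of_nonneg_right (c.min i μ) zero_le
  κM := fun μ i a => c.fl.κM _ a
  w := G.w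
  w0 := G.w0
  Nw0 := G.Nw0
  KM := fun i => by
    rw [G.KM, mon_div _ _ _ (G.fo_ne c.piv) (G.eS i)]
  eM := G.eM

end Pool.Agent.H87.RS
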