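import Pool.Agent.H87.RS.GA
import Pool.Agent.H96.Z.Abs

/-!
# The finite sets attached to the global data
-/

set_option autoImplicit false
set_option linter.unusedSectionVars false

namespace Pool.Agent.H87.RS

open MvPolynomial IsLocalRing Pool.Agent.H96.Reg Pool.Agent.H96.VL Pool.Agent.H96.W
open Pool.Agent.H96.S (Va Ndg FL FD cond_t cond_f gen_map mon_map aeval_am)
open scoped Pointwise

variable {p : ℕ} [Fact p.Prime] {K F : Type} [Field K] [Algebra (ZMod p) K] [Field F]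
  [Algebra (ZMod p) F] [Algebra F K] [IsScalarTower (ZMod p) F K] {A J Λ : Type} [Fintype A]
  [DecidableEq A] [Fintype Λ] [DecidableEq Λ] {d m r rh : ℕ} {Nw : Fin r → ℕ}
  {ew : Fin r → Λ → ℤ} {M : ℕ}

namespace GD

variable (G : GD p K F A J Λ d m r rh Nw ew M)

section Sets

variable [DecidableEq K]

/-- The set of the twists. -/
noncomputable def sJ [Fintype J] : Finset K := Finset.univ.image fun j => algebraMap F K (G.fd.c j)

/-- The set of the forms. -/
noncomputable def sl : Finset K := Finset.univ.image G.fo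

/-- The sets of the coordinates. -/
noncomputable def ss : Ix A Λ r → Finset K :=
  Sum.elim (fun a => (G.fd.T a).image (algebraMap F K)) (Sum.elim (fun μ => {G.fo μ})
    fun c => {G.w c} * ∏ μ, {G.fo μ} ^ M)

/-- The denominators. -/
noncomputable def sL [Fintype J] : Ix A Λ r → Finset K :=
  Sum.elim (fun _ => G.sJ) (Sum.elim (fun _ => G.sl) fun _ => G.sl ^ (Fintype.card Λ * M))

/-- The sets which detect the base. -/
noncomputable def base [Fintype J] : Finset (Finset K) :=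
  G.fd.base.image (fun s => s.image (algebraMap F K)) ∪
    ({G.sl} ∪ Finset.univ.image fun c => G.ss (Sum.inr (Sum.inr c)) ∪ G.sL (Sum.inr (Sum.inr c)))

end Sets

variable {G} {V : ValuationSubring K}

/-- The twists of the coordinates. -/
noncomputable def TT (D : G.Lc V) : Ix A Λ r → K :=
  Sum.elim (fun _ => algebraMap F K (G.fd.c D.fl.j)) (Sum.elim (fun _ => G.fo D.piv)
    fun _ => G.fo D.piv ^ (Fintype.card Λ * M))

/-- The subring contains the ring of the factor and the normalized elements. -/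
structure Bs (D : G.Lc V) (R : Subring K) : Prop where
  loc : VLocal V R
  b1 : ∀ w ∈ D.fl.R, algebraMap F K w ∈ R
  bl : ∀ μ, G.fo μ / G.fo D.piv ∈ R
  bw : ∀ c, G.w c * (G.toLD D).pt ∈ R

variable {D : G.Lc V} {R : Subring K}

theorem Bs.τ_mem (h : Bs D R) (α : Ix A Λ r) : (G.toLD D).τ α ∈ R := by
  rcases α with a | l | c
  · exact h.b1 _ (D.fl.tR a)
  · exact h.bl l
  · exact h.bw c

theorem Bs.Y_mem (h : Bs D R) (s : Va D.fl.n d) : (G.toLD D).y s ∈ R := h.b1 _ (D.fl.yR s)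

theorem bs_self (D : G.Lc V) : Bs D V.toSubring where
  loc := ⟨fun x hx => (V.valuation_le_one_iff x).mpr hx, fun x hx h1 => by
    have h2 : V.valuation x⁻¹ = 1 := by rw [map_inv₀, h1, inv_one]
    exact (V.valuation_le_one_iff _).mp h2.le⟩
  b1 := fun w hw => (V.valuation_le_one_iff _).mp (wv_le_one.mp (D.fl.loc.le _ hw))
  bl := fun l => (V.valuation_le_one_iff _).mp ((G.toLD D).vσ l)
  bw := fun c => (V.valuation_le_one_iff _).mp ((G.toLD D).vτw c)

section Gens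

variable [DecidableEq K]

theorem gen_sl (h : ∀ μ, G.fo μ / G.fo D.piv ∈ R) : Gen R G.sl (G.fo D.piv) := by
  refine ⟨G.fo_ne _, fun g hg => ?_, _, Finset.mem_image_of_mem _ (Finset.mem_univ D.piv),
    by rw [div_self (G.fo_ne _)]; exact R.one_mem, G.fo_ne _⟩
  obtain ⟨l, -, rfl⟩ := Finset.mem_image.mp hg
  exact h l

theorem gen_sJ [Fintype J] (b1 : ∀ w ∈ D.fl.R, algebraMap F K w ∈ R) :
    Gen R G.sJ (algebraMap F K (G.fd.c D.fl.j)) := by
  have h0 : algebraMap F K (G.fd.c D.fl.j) ≠ 0 := (map_ne_zero _).mpr (G.fd.c0 _)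
  refine ⟨h0, fun g hg => ?_, _, Finset.mem_image_of_mem _ (Finset.mem_univ D.fl.j),
    by rw [div_self h0]; exact R.one_mem, h0⟩
  obtain ⟨l, -, rfl⟩ := Finset.mem_image.mp hg
  rw [← map_div₀]
  exact b1 _ (D.fl.crat l)

theorem gen_ss_w (D : G.Lc V) (R : Subring K) (c : Fin r) : Gen R (G.ss (Sum.inr (Sum.inr c)))
    (G.fo D.piv ^ (Fintype.card Λ * M) * (G.w c * (G.toLD D).pt)) := by
  have h1 := (Gen.singleton (R := R) (G.w0 c)).mul (Gen.prod (R := R) Finset.univ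
    (s := fun μ => ({G.fo μ} : Finset K) ^ M) (T := fun μ => G.fo μ ^ M)
    fun μ _ => (Gen.singleton (G.fo_ne μ)).pow M)
  have h2 : G.w c * ∏ μ, G.fo μ ^ M =
      G.fo D.piv ^ (Fintype.card Λ * M) * (G.w c * (G.toLD D).pt) := by
    have h3 : ∏ μ, G.fo μ ^ M = G.fo D.piv ^ (Fintype.card Λ * M) * (G.toLD D).pt := by
      have h4 : G.fo D.piv ^ (Fintype.card Λ * M) = ∏ _l : Λ, G.fo D.piv ^ M := by
        rw [Finset.prod_const, Finset.card_univ, ← pow_mul, mul_comm]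
      rw [h4, LD.pt, mon, ← Finset.prod_mul_distrib]
      refine Finset.prod_congr rfl fun μ _ => ?_
      have h5 : (G.toLD D).σ μ = G.fo μ / G.fo D.piv := rfl
      rw [h5, zpow_natCast, ← mul_pow, mul_div_cancel₀ _ (G.fo_ne D.piv)]
    rw [h3]; ring
  rw [h2] at h1
  exact h1

theorem gen_sL_w (h : ∀ μ, G.fo μ / G.fo D.piv ∈ R) :
    Gen R (G.sl ^ (Fintype.card Λ * M)) (G.fo D.piv ^ (Fintype.card Λ * M)) :=
  (gen_sl h).pow _

variable [Fintype J]

theorem Bs.gen_ss (h : Bs D R) (α : Ix A Λ r) :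
    Gen R (G.ss α) (TT D α * (G.toLD D).τ α) := by
  rcases α with a | l | c
  · have h1 := gen_map h.b1 (D.fl.gT a)
    rw [map_mul, mul_comm] at h1
    exact h1
  · show Gen R {G.fo l} (G.fo D.piv * (G.fo l / G.fo D.piv))
    rw [mul_div_cancel₀ _ (G.fo_ne D.piv)]
    exact Gen.singleton (G.fo_ne l)
  · exact gen_ss_w D R c

theorem Bs.gen_sL (h : Bs D R) (α : Ix A Λ r) : Gen R (G.sL α) (TT D α) := by
  rcases α with a | l | c
  · exact gen_sJ h.b1
  · exact gen_sl h.bl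
  · exact gen_sL_w h.bl

theorem Bs.prin (h : Bs D R) (hp : ∀ s ∈ G.fd.base, Prin D.fl.R s) (s : Finset K)
    (hs : s ∈ G.base) : Prin R s := by
  rcases Finset.mem_union.mp hs with hs | hs
  · obtain ⟨s', hs', rfl⟩ := Finset.mem_image.mp hs
    obtain ⟨T, hT⟩ := hp s' hs'
    exact ⟨_, gen_map h.b1 hT⟩
  · rcases Finset.mem_union.mp hs with hs | hs
    · rw [Finset.mem_singleton.mp hs]
      exact ⟨_, gen_sl h.bl⟩
    · obtain ⟨c, -, rfl⟩ := Finset.mem_image.mp hs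
      refine (h.gen_ss (Sum.inr (Sum.inr c))).prin_union (h.gen_sL (Sum.inr (Sum.inr c)))
        (Or.inl ?_)
      have h0 : TT D (Sum.inr (Sum.inr c)) ≠ 0 := pow_ne_zero _ (G.fo_ne _)
      rw [mul_div_cancel_left₀ _ h0]
      exact h.bw c

/-- Detection. -/
theorem bs_of_prin (D : G.Lc V) (hR : VLocal V R)
    (hmin : ∀ R' : Subring F, VLocal (WV V F) R' → (∀ s ∈ G.fd.base, Prin R' s) → D.fl.R ≤ R')
    (hs : ∀ s ∈ G.base, Prin R s) : Bs D R := by
  classical
  have b1 : ∀ w ∈ D.fl.R, algebraMap F K w ∈ R := fun w hw =>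
    hmin (R.comap (algebraMap F K)) (vlocal_comap hR) (fun s hs' => prin_comap
      (hs _ (Finset.mem_union_left _ (Finset.mem_image_of_mem _ hs')))) hw
  have bl : ∀ μ, G.fo μ / G.fo D.piv ∈ R := by
    obtain ⟨T, hT⟩ := hs G.sl (Finset.mem_union_right _ (Finset.mem_union_left _
      (Finset.mem_singleton_self _)))
    have h1 : Gen R G.sl (G.fo D.piv) := hT.of_max hR
      (Finset.mem_image_of_mem _ (Finset.mem_univ D.piv)) fun g hg => by
        obtain ⟨l, -, rfl⟩ := Finset.mem_image.mp hg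
        exact D.max l
    exact fun l => h1.mem _ (Finset.mem_image_of_mem _ (Finset.mem_univ l))
  refine ⟨hR, b1, bl, fun c => ?_⟩
  have h1 := gen_ss_w D R c
  have h2 := gen_sL_w (D := D) bl
  have h3 : G.fo D.piv ^ (Fintype.card Λ * M) ≠ 0 := pow_ne_zero _ (G.fo_ne _)
  have h4 := h1.div_mem_of_prin hR h2
    (u := G.ss (Sum.inr (Sum.inr c)) ∪ G.sL (Sum.inr (Sum.inr c)))
    Finset.subset_union_left Finset.subset_union_right (fun g hg => by
      rcases Finset.mem_union.mp hg with hg | hg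
      · refine (h1.val_le hR hg).trans ?_
        rw [map_mul]
        exact mul_le_of_le_one_right' ((G.toLD D).vτw c)
      · exact h2.val_le hR hg)
    (hs _ (Finset.mem_union_right _ (Finset.mem_union_right _
      (Finset.mem_image.mpr ⟨c, Finset.mem_univ _, rfl⟩))))
  rwa [mul_div_cancel_left₀ _ h3] at h4

/-- The local choices exist. -/
theorem exists_lc (G : GD p K F A J Λ d m r rh Nw ew M) (V : ValuationSubring K)
    (hm : 1 ≤ m) : ∃ D : G.Lc V, (∀ s ∈ G.fd.base, Prin D.fl.R s) ∧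
      ∀ R' : Subring F, VLocal (WV V F) R' → (∀ s ∈ G.fd.base, Prin R' s) → D.fl.R ≤ R' := by
  classical
  obtain ⟨L, h1, h2⟩ := G.fd.loc (WV V F)
  obtain ⟨β, dβ, hβ⟩ := exists_minimal V G.cf G.li G.cf0 G.ex
  obtain ⟨piv, -, hpiv⟩ := Finset.exists_max_image Finset.univ (fun μ => V.valuation (G.fo μ))
    ⟨β ⟨0, hm⟩, Finset.mem_univ _⟩
  exact ⟨⟨L, β, dβ, hβ, piv, fun μ => hpiv μ (Finset.mem_univ _)⟩, h1, h2⟩

theorem base_ne (G : GD p K F A J Λ d m r rh Nw ew M) (hm : 1 ≤ m) (s : Finset K)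
    (hs : s ∈ G.base) : ∃ g ∈ s, g ≠ 0 := by
  obtain ⟨D, -, -⟩ := exists_lc G ⊤ hm
  rcases Finset.mem_union.mp hs with hs | hs
  · obtain ⟨s', hs', rfl⟩ := Finset.mem_image.mp hs
    obtain ⟨g, hg, hg0⟩ := G.fd.base0 s' hs'
    exact ⟨_, Finset.mem_image_of_mem _ hg, (map_ne_zero _).mpr hg0⟩
  · rcases Finset.mem_union.mp hs with hs | hs
    · rw [Finset.mem_singleton.mp hs]
      exact ⟨_, Finset.mem_image_of_mem _ (Finset.mem_univ D.piv), G.fo_ne _⟩
    · obtain ⟨c, -, rfl⟩ := Finset.mem_image.mp hs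
      obtain ⟨g, hg, -, h0⟩ := (gen_ss_w D ⊤ c).ex
      exact ⟨g, Finset.mem_union_left _ hg, h0⟩

end Gens

/-- The field of the factor. -/
theorem F_mem (D : G.Lc V) {E : Subring K} (hinv : ∀ x ∈ E, x ≠ 0 → x⁻¹ ∈ E)
    (h : ∀ w ∈ D.fl.R, algebraMap F K w ∈ E) (w : F) : algebraMap F K w ∈ E := by
  obtain ⟨a, ha, s, hs, hs0, rfl⟩ := D.fl.fr w
  rw [map_div₀, div_eq_mul_inv]
  exact E.mul_mem (h a ha) (hinv _ (h s hs) ((map_ne_zero _).mpr hs0))

/-- A subfield which contains the coordinates and the ring of the factor is everything. -/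
theorem top_of_mem (D : G.Lc V) {E : Subring K} (hinv : ∀ x ∈ E, x ≠ 0 → x⁻¹ ∈ E)
    (h : ∀ w ∈ D.fl.R, algebraMap F K w ∈ E) (hl : ∀ μ, G.fo μ / G.fo D.piv ∈ E)
    (hw : ∀ c, G.w c * (G.toLD D).pt ∈ E) : E = ⊤ := by
  have hpt : (G.toLD D).pt⁻¹ ∈ E := by
    refine hinv _ (Subring.prod_mem _ fun μ _ => ?_) (G.toLD D).pt_ne_zero
    show (G.fo μ / G.fo D.piv) ^ (M : ℤ) ∈ E
    rw [zpow_natCast]
    exact E.pow_mem (hl μ) _
  refine G.gen E hinv (F_mem D hinv h) (fun μ ν => ?_) fun c => ?_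
  · have h1 := E.mul_mem (hl μ) (hinv _ (hl ν) (div_ne_zero (G.fo_ne _) (G.fo_ne _)))
    have h2 : G.fo μ / G.fo D.piv * (G.fo ν / G.fo D.piv)⁻¹ = G.fo μ / G.fo ν := by
      have h3 := G.fo_ne D.piv
      have h4 := G.fo_ne ν
      field_simp
    rwa [h2] at h1
  · have h3 := E.mul_mem (hw c) hpt
    rwa [mul_assoc, mul_inv_cancel₀ (G.toLD D).pt_ne_zero, mul_one] at h3

end GD

end Pool.Agent.H87.RS
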