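import Pool.Agent.H87.RS.GB
import Pool.Agent.H96.W2.Reg

/-!
# Models of abelian covers branched along hyperplanes
-/

set_option autoImplicit false
set_option linter.unusedSectionVars false

namespace Pool.Agent.H87.RS

open MvPolynomial IsLocalRing Pool.Agent.H96.Reg Pool.Agent.H96.VL Pool.Agent.H96.W
open Pool.Agent.H96.Z (cring hasCharts_of_cd CD)
open Pool.Agent.H96.W2 (resK)
open Pool.Agent.H96.W2 (BX mem_BX zero_mem_BX single_mem_BX single_one_mem_BX neg_mem_BX)
open Pool.Agent.H96.S (Va Ndg FL FD cond_t cond_f gen_map mon_map aeval_am)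
open scoped Pointwise

variable {p : ℕ} [Fact p.Prime] {K F : Type} [Field K] [Algebra (ZMod p) K] [Field F]
  [Algebra (ZMod p) F] [Algebra F K] [IsScalarTower (ZMod p) F K] {A J Λ : Type} [Fintype A]
  [DecidableEq A] [Fintype Λ] [DecidableEq Λ] {d m r rh : ℕ} {Nw : Fin r → ℕ}
  {ew : Fin r → Λ → ℤ} {M : ℕ}

namespace GD

variable {G : GD p K F A J Λ d m r rh Nw ew M} {V : ValuationSubring K}

/-- The ring of the chart. -/
theorem bs_cring (D : G.Lc V) {C : Cone (Ix A Λ r)} (hC : IsCone C)
    (hb : ∀ j, V.valuation (mon (G.toLD D).τ (C.b j)) ≤ 1) :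
    Bs D (cring V (G.toLD D).τ (G.toLD D).y C) := by
  set L := G.toLD D with hL
  have hR : VLocal V (cring V L.τ L.y C) := by
    apply vlocal_vloc
    apply adjoin_val_le
    rintro _ ⟨j | l, rfl⟩
    · exact hb j
    · exact L.vy l
  have hbR : ∀ j, mon L.τ (C.b j) ∈ cring V L.τ L.y C := fun j =>
    subset_vloc (Algebra.subset_adjoin ⟨Sum.inl j, rfl⟩)
  have hYR : ∀ l, L.y l ∈ cring V L.τ L.y C := fun l =>
    subset_vloc (Algebra.subset_adjoin ⟨Sum.inr l, rfl⟩)
  have hk : ∀ c : ZMod p, algebraMap (ZMod p) K c ∈ cring V L.τ L.y C := by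
    intro c
    obtain ⟨n, rfl⟩ := ZMod.intCast_surjective c
    rw [map_intCast]
    exact intCast_mem _ n
  have hpoly : ∀ (P : MvPolynomial (Va L.n d) (ZMod p)), aeval L.y P ∈ cring V L.τ L.y C := by
    intro P
    induction P using MvPolynomial.induction_on with
    | C a => rw [aeval_C]; exact hk a
    | add P Q hP hQ => rw [map_add]; exact Subring.add_mem _ hP hQ
    | mul_X P b hP => rw [map_mul, aeval_X]; exact Subring.mul_mem _ hP (hYR b)
  have hτ : ∀ α, L.τ α ∈ cring V L.τ L.y C := by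
    intro α
    rw [← mon_single (τ := L.τ) α]
    refine hC.mem (Q := {u | mon L.τ u ∈ cring V L.τ L.y C}) (fun u hu v hv => ?_) ?_ hbR
      (fun j => ?_)
    · show mon L.τ (u + v) ∈ cring V L.τ L.y C
      rw [mon_add L.τ_ne_zero]
      exact Subring.mul_mem _ hu hv
    · show mon L.τ 0 ∈ cring V L.τ L.y C
      rw [mon_zero]; exact Subring.one_mem _
    · rw [dotProduct_single_one]
      exact hC.pos _ _
  refine ⟨hR, fun w hw => ?_, fun l => hτ (Sum.inr (Sum.inl l)), fun c => hτ (Sum.inr (Sum.inr c))⟩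
  obtain ⟨a, s, h1, h2⟩ := D.fl.gen w hw
  have h3 : algebraMap F K w = aeval L.y a / aeval L.y s := by
    rw [h2, map_div₀, ← aeval_am, ← aeval_am]
    rfl
  rw [h3]
  refine hR.div_mem (hpoly a) (hpoly s) ?_
  show V.valuation (aeval (fun s => algebraMap F K (D.fl.y s)) s) = 1
  rw [aeval_am]
  exact wv_eq_one.mp h1

/-- The field is generated by the chart. -/
theorem isAlgebraic_chart (D : G.Lc V) {C : Cone (Ix A Λ r)} (hC : IsCone C) :
    Algebra.IsAlgebraic (Algebra.adjoin (ZMod p)
      (Set.range (Sum.elim (fun j => mon (G.toLD D).τ (C.b j)) (G.toLD D).y))) K := by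
  set L := G.toLD D with hL
  set X := Set.range (Sum.elim (fun j => mon L.τ (C.b j)) L.y) with hX
  set E := (Subfield.closure X) with hE
  have hbR : ∀ j, mon L.τ (C.b j) ∈ E := fun j => Subfield.subset_closure ⟨Sum.inl j, rfl⟩
  have hYR : ∀ l, L.y l ∈ E := fun l => Subfield.subset_closure ⟨Sum.inr l, rfl⟩
  have hk : ∀ a : ZMod p, algebraMap (ZMod p) K a ∈ E := by
    intro c
    obtain ⟨n, rfl⟩ := ZMod.intCast_surjective c
    rw [map_intCast]
    exact intCast_mem _ n
  have hpoly : ∀ (P : MvPolynomial (Va L.n d) (ZMod p)), aeval L.y P ∈ E := by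
    intro P
    induction P using MvPolynomial.induction_on with
    | C a => rw [aeval_C]; exact hk a
    | add P Q hP hQ => rw [map_add]; exact E.add_mem hP hQ
    | mul_X P b hP => rw [map_mul, aeval_X]; exact E.mul_mem hP (hYR b)
  have hF1 : ∀ w ∈ D.fl.R, algebraMap F K w ∈ E.toSubring := by
    intro w hw
    obtain ⟨a, s, -, h2⟩ := D.fl.gen w hw
    have h3 : algebraMap F K w = aeval L.y a / aeval L.y s := by
      rw [h2, map_div₀, ← aeval_am, ← aeval_am]
      rfl
    rw [h3]
    exact E.div_mem (hpoly a) (hpoly s)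
  have hτ : ∀ α, L.τ α ∈ E.toSubring := by
    intro α
    rw [← mon_single (τ := L.τ) α]
    refine hC.mem (Q := {u | mon L.τ u ∈ E.toSubring}) (fun u hu v hv => ?_) ?_ hbR (fun j => ?_)
    · show mon L.τ (u + v) ∈ E
      rw [mon_add L.τ_ne_zero]
      exact E.mul_mem hu hv
    · show mon L.τ 0 ∈ E
      rw [mon_zero]; exact E.one_mem
    · rw [dotProduct_single_one]
      exact hC.pos _ _
  have htop := top_of_mem (E := E.toSubring) D (fun x hx _ => E.inv_mem hx) hF1
    (fun l => hτ (Sum.inr (Sum.inl l))) fun c => hτ (Sum.inr (Sum.inr c))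
  have hE' : E = ⊤ := by
    rw [eq_top_iff]
    intro x _
    have : x ∈ E.toSubring := by rw [htop]; trivial
    exact this
  have hcl : Subfield.closure (Algebra.adjoin ℤ X : Set K) = ⊤ := by
    rw [eq_top_iff, ← hE', hE]
    exact Subfield.closure_mono Algebra.subset_adjoin
  have hfr := isFractionRing_of_closure _ hcl
  have halg : Algebra.IsAlgebraic (Algebra.adjoin ℤ X) K :=
    IsLocalization.isAlgebraic K (nonZeroDivisors (Algebra.adjoin ℤ X))
  have hle : ∀ x ∈ Algebra.adjoin ℤ X, x ∈ Algebra.adjoin (ZMod p) X := by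
    intro x hx
    exact adjoin_le_of (R := (Algebra.adjoin (ZMod p) X).toSubring)
      (fun x hx => Algebra.subset_adjoin hx) x hx
  let j : Algebra.adjoin ℤ X →+* Algebra.adjoin (ZMod p) X :=
    { toFun := fun x => ⟨x, hle _ x.2⟩
      map_one' := rfl
      map_mul' := fun _ _ => rfl
      map_zero' := rfl
      map_add' := fun _ _ => rfl }
  let i1 : Algebra (Algebra.adjoin ℤ X) (Algebra.adjoin (ZMod p) X) := j.toAlgebra
  have i2 : IsScalarTower (Algebra.adjoin ℤ X) (Algebra.adjoin (ZMod p) X) K :=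
    IsScalarTower.of_algebraMap_eq fun x => rfl
  exact Algebra.IsAlgebraic.extendScalars (R := Algebra.adjoin ℤ X) (fun x y hxy =>
    Subtype.ext (congrArg (fun z : Algebra.adjoin (ZMod p) X => (z : K)) hxy))

/-- **Models of abelian covers branched along hyperplanes.** -/
theorem hasCharts [Finite J] (G : GD p K F A J Λ d m r rh Nw ew M) (hm : 1 ≤ m)
    (htr : ((d + (m - 1) : ℕ) : Cardinal.{0}) ≤ Algebra.trdeg (ZMod p) K) :
    Pool.Agent.H19.OG.HasCharts K := by
  classical
  let _ : Fintype J := Fintype.ofFinite J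
  set M' : ℕ := max 1 (max M (Finset.univ.sup fun c => max (Nw c) (Nw c * M))) with hM'
  refine hasCharts_of_cd (Finset.image₂ (fun u v => u - v) (BX (Ix A Λ r) M') (BX (Ix A Λ r) M'))
    G.base G.ss G.sL (base_ne G hm) ?_ ?_
  · intro R hinv hs
    obtain ⟨D, -, hmin⟩ := exists_lc G ⊤ hm
    have hall : ∀ x : K, (⊤ : ValuationSubring K).valuation x ≤ 1 := fun x =>
      (ValuationSubring.valuation_le_one_iff _ _).mpr trivial
    have hR : VLocal (⊤ : ValuationSubring K) R := ⟨fun x _ => hall x, fun x hx h1 => hinv x hx (by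
      rintro rfl
      rw [map_zero] at h1
      exact zero_ne_one h1)⟩
    have hb := bs_of_prin D hR hmin hs
    exact top_of_mem D hinv hb.b1 hb.bl hb.bw
  · intro V
    obtain ⟨D, hp, hmin⟩ := exists_lc G V hm
    have hcst : ∀ c : ZMod p, V.valuation (algebraMap (ZMod p) K c) ≤ 1 := by
      intro c
      obtain ⟨n, rfl⟩ := ZMod.intCast_surjective c
      rw [map_intCast]
      exact (V.valuation_le_one_iff _).mpr (intCast_mem _ n)
    let _ : Algebra (ZMod p) (ResidueField V) := (resK (ZMod p) V hcst).toAlgebra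
    exact ⟨Va D.fl.n d, ⟨{
      τ := (G.toLD D).τ
      T := TT D
      Y := (G.toLD D).y
      Bs := Bs D
      τ0 := (G.toLD D).τ_ne_zero
      vτ := (G.toLD D).vτ
      loc := fun _ h => h.loc
      gs := fun _ h => h.gen_ss
      gL := fun _ h => h.gen_sL
      mτ := fun _ h => h.τ_mem
      mY := fun _ h => h.Y_mem
      pb := fun _ h => h.prin hp
      det := fun R hR hs => bs_of_prin D hR hmin hs
      self := bs_self D
      ch := fun C hC hb hW => ⟨bs_cring D hC hb, isRegular_local
        ⟨hC, hb, fun u hu u' hu' => hW _ (Finset.mem_image₂_of_mem hu hu'), le_max_left _ _,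
          (le_max_left _ _).trans (le_max_right _ _), fun c => by
            have h1 : max (Nw c) (Nw c * M) ≤ M' := ((Finset.le_sup
              (f := fun c => max (Nw c) (Nw c * M)) (Finset.mem_univ c)).trans
              (le_max_right _ _)).trans (le_max_right _ _)
            exact ⟨(le_max_left _ _).trans h1, (le_max_right _ _).trans h1⟩⟩
        hm (isAlgebraic_chart D hC) htr⟩ }⟩⟩

end GD

end Pool.Agent.H87.RS
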