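import Pool.Agent.H96.S.LReg

/-!
# The local data at a valuation of a cover of a projective space branched along hyperplanes
-/

set_option autoImplicit false
set_option linter.unusedSectionVars false

namespace Pool.Agent.H87.RS

open MvPolynomial IsLocalRing Pool.Agent.H96.Reg Pool.Agent.H96.VL Pool.Agent.H96.W
open Pool.Agent.H96.W2 (BX mem_BX zero_mem_BX single_mem_BX single_one_mem_BX neg_mem_BX)
open Pool.Agent.H96.S (Va Ndg Ts sum_Ts cond_t cond_f zc0 zc_ne resv_aevalp sum_single_eq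
  sum_zero_eq)

/-- The local data at `V`. -/
structure LD (p : ℕ) {K : Type} [Field K] [Algebra (ZMod p) K] (V : ValuationSubring K)
    (A Λ : Type) [Fintype A] [DecidableEq A] [Fintype Λ] [DecidableEq Λ] (d m : ℕ) {r : ℕ}
    (Nw : Fin r → ℕ) (ew : Fin r → Λ → ℤ) (M : ℕ) where
  n : ℕ
  y : Va n d → K
  G : Fin n → MvPolynomial (Va n d) (ZMod p)
  D : MvPolynomial (Va n d) (ZMod p)
  l : A → Option (Fin d)
  t : A → K
  vy : ∀ s, V.valuation (y s) ≤ 1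
  rel : ∀ j, aeval y (G j) = 0
  vD : V.valuation (aeval y D) = 1
  ndg : Ndg G D
  l0 : ∀ a, l a = none → t a = 1
  l1 : ∀ a c, l a = some c → V.valuation (t a) < 1 ∧ t a ≠ 0 ∧ y (Sum.inr c) = t a
  linj : ∀ a a' c, l a = some c → l a' = some c → a = a'
  σ : Λ → K
  σ0 : ∀ μ, σ μ ≠ 0
  vσ : ∀ μ, V.valuation (σ μ) ≤ 1
  piv : Λ
  σp : σ piv = 1
  β : Fin m → Λ
  βi : Function.Injective β
  on : Λ → Fin m → Bool
  q : Λ → Fin m → Va n d
  κ : Λ → Fin m → A → ℤ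
  vq : ∀ μ i, V.valuation (y (q μ i)) = 1
  lin : ∀ μ, σ μ = ∑ i, cond (on μ i) (y (q μ i) * mon t (κ μ i) * σ (β i)) 0
  dom : ∀ μ i, on μ i = true → V.valuation (mon t (κ μ i) * σ (β i)) ≤ V.valuation (σ μ)
  κM : ∀ μ i a, |κ μ i a| ≤ M
  w : Fin r → K
  w0 : ∀ c, w c ≠ 0
  Nw0 : ∀ c, ¬ p ∣ Nw c
  KM : ∀ c, w c ^ Nw c = mon σ (ew c)
  eM : ∀ c μ, |ew c μ| ≤ M

/-- The index set of the coordinates. -/
abbrev Ix (A Λ : Type) (r : ℕ) : Type := A ⊕ (Λ ⊕ Fin r)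

namespace LD

variable {p : ℕ} [Fact p.Prime] {K : Type} [Field K] [Algebra (ZMod p) K]
  {V : ValuationSubring K} {A Λ : Type} [Fintype A] [DecidableEq A] [Fintype Λ] [DecidableEq Λ]
  {d m r : ℕ} {Nw : Fin r → ℕ} {ew : Fin r → Λ → ℤ} {M : ℕ} (L : LD p V A Λ d m Nw ew M)

theorem t_ne_zero (a : A) : L.t a ≠ 0 := by
  cases h : L.l a with
  | none => rw [L.l0 a h]; exact one_ne_zero
  | some c => exact (L.l1 a c h).2.1

theorem vt (a : A) : V.valuation (L.t a) ≤ 1 := by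
  cases h : L.l a with
  | none => rw [L.l0 a h, map_one]
  | some c => exact (L.l1 a c h).1.le

theorem mon_ne (e : A → ℤ) : mon L.t e ≠ 0 := mon_ne_zero L.t_ne_zero e

/-- The product of the forms. -/
def pt : K := mon L.σ fun _ => (M : ℤ)

theorem pt_ne_zero : L.pt ≠ 0 := mon_ne_zero L.σ0 _

theorem vmon_nonneg {e : Λ → ℤ} (he : ∀ μ, 0 ≤ e μ) : V.valuation (mon L.σ e) ≤ 1 := by
  rw [mon, map_prod]
  refine Finset.prod_le_one' fun μ _ => ?_
  obtain ⟨k, hk⟩ := Int.eq_ofNat_of_zero_le (he μ)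
  rw [hk, zpow_natCast, map_pow]
  exact pow_le_one' (L.vσ μ) k

/-- The coordinates. -/
noncomputable def τ : Ix A Λ r → K :=
  Sum.elim L.t (Sum.elim L.σ fun c => L.w c * L.pt)

theorem τ_a (a : A) : L.τ (Sum.inl a) = L.t a := rfl

theorem τ_f (μ : Λ) : L.τ (Sum.inr (Sum.inl μ)) = L.σ μ := rfl

theorem τ_w (c : Fin r) : L.τ (Sum.inr (Sum.inr c)) = L.w c * L.pt := rfl

theorem τ_ne_zero (α : Ix A Λ r) : L.τ α ≠ 0 := by
  rcases α with a | μ | c
  · exact L.t_ne_zero a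
  · exact L.σ0 μ
  · exact mul_ne_zero (L.w0 c) L.pt_ne_zero

include L in
theorem Nw_ne_zero (c : Fin r) : Nw c ≠ 0 := by
  intro h
  apply L.Nw0 c
  rw [h]
  exact dvd_zero p

theorem vτw (c : Fin r) : V.valuation (L.w c * L.pt) ≤ 1 := by
  have h0 := L.Nw_ne_zero c
  have h1 : V.valuation ((L.w c * L.pt) ^ Nw c) ≤ 1 := by
    rw [mul_pow, L.KM, pt, ← zpow_natCast, ← mon_smul, ← mon_add L.σ0]
    refine L.vmon_nonneg fun μ => ?_
    show 0 ≤ ew c μ + (Nw c : ℤ) * (M : ℤ)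
    have h2 := (abs_le.mp (L.eM c μ)).1
    have h3 : (M : ℤ) ≤ (Nw c : ℤ) * (M : ℤ) := by
      exact_mod_cast Nat.le_mul_of_pos_left M (Nat.pos_of_ne_zero h0)
    linarith
  by_contra hcon
  rw [map_pow] at h1
  exact absurd h1 (not_le.mpr (one_lt_pow₀ (not_le.mp hcon) h0))

theorem vτ (α : Ix A Λ r) : V.valuation (L.τ α) ≤ 1 := by
  rcases α with a | μ | c
  · exact L.vt a
  · exact L.vσ μ
  · exact L.vτw c

/-- The exponent of a term of a linear relation. -/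
def Ef (_L : LD p V A Λ d m Nw ew M) (κ : A → ℤ) (μ : Λ) : Ix A Λ r → ℤ :=
  Sum.elim κ (Sum.elim (Pi.single μ 1) 0)

/-- The exponent of `w c`. -/
def Ew (_L : LD p V A Λ d m Nw ew M) (c : Fin r) : Ix A Λ r → ℤ :=
  Sum.elim 0 (Sum.elim (fun _ => -(M : ℤ)) (Pi.single c 1))

/-- The exponent of the right side of a Kummer relation. -/
def Er (_L : LD p V A Λ d m Nw ew M) (c : Fin r) : Ix A Λ r → ℤ :=
  Sum.elim 0 (Sum.elim (ew c) 0)

theorem mon_sum (e : Ix A Λ r → ℤ) : mon L.τ e =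
    mon L.t (fun a => e (Sum.inl a)) * (mon L.σ (fun μ => e (Sum.inr (Sum.inl μ))) *
      ∏ c, (L.w c * L.pt) ^ e (Sum.inr (Sum.inr c))) := by
  rw [mon, Fintype.prod_sum_type, Fintype.prod_sum_type]
  rfl

theorem mon_Ef (κ : A → ℤ) (μ : Λ) : mon L.τ (L.Ef κ μ) = mon L.t κ * L.σ μ := by
  rw [L.mon_sum]
  have h1 : (fun a => L.Ef κ μ (Sum.inl a)) = κ := rfl
  have h2 : (fun ν => L.Ef κ μ (Sum.inr (Sum.inl ν))) = Pi.single μ 1 := rfl
  have h3 : ∏ c, (L.w c * L.pt) ^ L.Ef κ μ (Sum.inr (Sum.inr c)) = 1 :=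
    Finset.prod_eq_one fun c _ => zpow_zero _
  rw [h1, h2, h3, mul_one, mon_single]

theorem mon_Ew (c : Fin r) : mon L.τ (L.Ew c) = L.w c := by
  rw [L.mon_sum]
  have h1 : (fun a => L.Ew c (Sum.inl a)) = 0 := rfl
  have h2 : (fun ν => L.Ew c (Sum.inr (Sum.inl ν))) = -(fun _ => (M : ℤ)) := rfl
  have h3 : ∏ c', (L.w c' * L.pt) ^ L.Ew c (Sum.inr (Sum.inr c')) = L.w c * L.pt := by
    rw [Finset.prod_eq_single c]
    · show _ ^ ((Pi.single c 1 : Fin r → ℤ) c) = _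
      rw [Pi.single_eq_same, zpow_one]
    · intro c' _ hc
      show _ ^ ((Pi.single c 1 : Fin r → ℤ) c') = _
      rw [Pi.single_eq_of_ne hc, zpow_zero]
    · intro h; exact absurd (Finset.mem_univ _) h
  rw [h1, h2, h3, mon_zero, mon_neg, one_mul]
  have h4 := L.pt_ne_zero
  show (L.pt)⁻¹ * (L.w c * L.pt) = L.w c
  field_simp

theorem mon_Er (c : Fin r) : mon L.τ (L.Er c) = mon L.σ (ew c) := by
  rw [L.mon_sum]
  have h1 : (fun a => L.Er c (Sum.inl a)) = 0 := rfl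
  have h2 : (fun ν => L.Er c (Sum.inr (Sum.inl ν))) = ew c := rfl
  have h3 : ∏ c', (L.w c' * L.pt) ^ L.Er c (Sum.inr (Sum.inr c')) = 1 :=
    Finset.prod_eq_one fun c _ => zpow_zero _
  rw [h1, h2, h3, mon_zero, one_mul, mul_one]

/-- A term of the pivot relation which has the size of the pivot. -/
theorem exists_top (μ : Λ) : ∃ i, L.on μ i = true ∧
    V.valuation (mon L.t (L.κ μ i) * L.σ (L.β i)) = V.valuation (L.σ μ) := by
  by_contra hcon
  push Not at hcon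
  have h1 : V.valuation (∑ i, cond (L.on μ i) (L.y (L.q μ i) * mon L.t (L.κ μ i) * L.σ (L.β i)) 0) <
      V.valuation (L.σ μ) := by
    have h0 : V.valuation (L.σ μ) ≠ 0 := by rw [Ne, Valuation.zero_iff]; exact L.σ0 μ
    refine Valuation.map_sum_lt _ h0 fun i _ => ?_
    rcases Bool.eq_false_or_eq_true (L.on μ i) with h | h
    · rw [cond_t h, mul_assoc, map_mul, L.vq, one_mul]
      exact lt_of_le_of_ne (L.dom μ i h) (hcon i h)
    · rw [cond_f h, map_zero]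
      exact zero_lt_iff.mpr h0
  rw [← L.lin μ] at h1
  exact absurd h1 (lt_irrefl _)

end LD

end Pool.Agent.H87.RS
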