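import Pool.Agent.H87.RS.LA

/-!
# The relations of a chart of a cover of a projective space
-/

set_option autoImplicit false
set_option linter.unusedSectionVars false

namespace Pool.Agent.H87.RS

open MvPolynomial IsLocalRing Pool.Agent.H96.Reg Pool.Agent.H96.VL Pool.Agent.H96.W
open Pool.Agent.H96.W2 (BX mem_BX zero_mem_BX single_mem_BX single_one_mem_BX neg_mem_BX)
open Pool.Agent.H96.S (Va Ndg Ts sum_Ts cond_t cond_f zc0 zc_ne resv_aevalp sum_single_eq
  sum_zero_eq)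

variable {p : ℕ} [Fact p.Prime] {K : Type} [Field K] [Algebra (ZMod p) K]
  {V : ValuationSubring K} {A Λ : Type} [Fintype A] [DecidableEq A] [Fintype Λ] [DecidableEq Λ]
  {d m r : ℕ} {Nw : Fin r → ℕ} {ew : Fin r → Λ → ℤ} {M M' : ℕ} {L : LD p V A Λ d m Nw ew M}

section Defs

variable (L)

/-- The relations of the colours. -/
noncomputable def LD.cI (a : A) : Ts (Fin m) → MvPolynomial (Va L.n d) (ZMod p) :=
  Sum.elim (fun _ => 0) fun c => cond c 1 ((L.l a).elim (-1) fun x => -X (Sum.inr x))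

def LD.xI (_L : LD p V A Λ d m Nw ew M) (a : A) : Ts (Fin m) → Ix A Λ r → ℤ :=
  Sum.elim (fun _ => 0) fun c => cond c (Pi.single (Sum.inl a) 1) 0

/-- The relations of the base. -/
noncomputable def LD.cG (j : Fin L.n) : Ts (Fin m) → MvPolynomial (Va L.n d) (ZMod p) :=
  Sum.elim (fun _ => 0) fun c => cond c 0 (L.G j)

/-- The relation of the pivot. -/
noncomputable def LD.cP : Ts (Fin m) → MvPolynomial (Va L.n d) (ZMod p) :=
  Sum.elim (fun _ => 0) fun c => cond c 1 (-1)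

def LD.xP : Ts (Fin m) → Ix A Λ r → ℤ :=
  Sum.elim (fun _ => 0) fun c => cond c (Pi.single (Sum.inr (Sum.inl L.piv)) 1) 0

/-- The linear relations. -/
noncomputable def LD.cF (μ : Λ) : Ts (Fin m) → MvPolynomial (Va L.n d) (ZMod p) :=
  Sum.elim (fun i => cond (L.on μ i) (-X (L.q μ i)) 0) fun c => cond c 1 0

def LD.xF (μ : Λ) : Ts (Fin m) → Ix A Λ r → ℤ :=
  Sum.elim (fun i => L.Ef (L.κ μ i) (L.β i)) fun c => cond c (L.Ef 0 μ) 0

/-- The Kummer relations. -/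
noncomputable def LD.cW (_c : Fin r) : Ts (Fin m) → MvPolynomial (Va L.n d) (ZMod p) :=
  Sum.elim (fun _ => 0) fun c' => cond c' 1 (-1)

def LD.xW (c : Fin r) : Ts (Fin m) → Ix A Λ r → ℤ :=
  Sum.elim (fun _ => 0) fun c' => cond c' ((Nw c : ℤ) • L.Ew c) (L.Er c)

end Defs

section Rel

theorem rel_I (a : A) : ∑ c, aeval L.y (L.cI a c) * mon L.τ (L.xI a c) = 0 := by
  rw [sum_Ts]
  simp only [LD.cI, LD.xI, Sum.elim_inl, Sum.elim_inr, map_zero, zero_mul,
    Finset.sum_const_zero, zero_add, cond_true, cond_false, map_one, one_mul, mon_zero, mul_one]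
  rw [mon_single, L.τ_a]
  cases h : L.l a with
  | none =>
    show L.t a + aeval L.y (-1 : MvPolynomial (Va L.n d) (ZMod p)) = 0
    rw [L.l0 _ h, map_neg, map_one]; ring
  | some x =>
    show L.t a + aeval L.y (-X (Sum.inr x) : MvPolynomial (Va L.n d) (ZMod p)) = 0
    rw [map_neg, aeval_X, (L.l1 _ _ h).2.2]; ring

theorem rel_G (j : Fin L.n) :
    ∑ s, aeval L.y (L.cG j s) * mon L.τ ((0 : Ts (Fin m) → Ix A Λ r → ℤ) s) = 0 := by
  rw [sum_Ts]
  simp only [LD.cG, Sum.elim_inl, Sum.elim_inr, map_zero, zero_mul,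
    Finset.sum_const_zero, zero_add, cond_true, cond_false]
  rw [L.rel j, zero_mul]

theorem rel_P : ∑ s, aeval L.y (L.cP s) * mon L.τ (L.xP s) = 0 := by
  rw [sum_Ts]
  simp only [LD.cP, LD.xP, Sum.elim_inl, Sum.elim_inr, map_zero, zero_mul,
    Finset.sum_const_zero, zero_add, cond_true, cond_false, map_one, one_mul, mon_zero, mul_one]
  rw [mon_single, L.τ_f, L.σp, map_neg, map_one]; ring

theorem rel_F (μ : Λ) : ∑ s, aeval L.y (L.cF μ s) * mon L.τ (L.xF μ s) = 0 := by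
  rw [sum_Ts]
  have h1 : ∀ i, aeval L.y (L.cF μ (Sum.inl i)) * mon L.τ (L.xF μ (Sum.inl i)) =
      -cond (L.on μ i) (L.y (L.q μ i) * mon L.t (L.κ μ i) * L.σ (L.β i)) 0 := by
    intro i
    show aeval L.y (cond (L.on μ i) (-X (L.q μ i)) 0 : MvPolynomial (Va L.n d) (ZMod p)) *
      mon L.τ (L.Ef (L.κ μ i) (L.β i)) = _
    rw [L.mon_Ef]
    rcases Bool.eq_false_or_eq_true (L.on μ i) with h | h
    · rw [cond_t h, cond_t h, map_neg, aeval_X]; ring
    · rw [cond_f h, cond_f h, map_zero, zero_mul, neg_zero]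
  have h2 : aeval L.y (L.cF μ (Sum.inr true)) * mon L.τ (L.xF μ (Sum.inr true)) = L.σ μ := by
    show aeval L.y (1 : MvPolynomial (Va L.n d) (ZMod p)) * mon L.τ (L.Ef 0 μ) = _
    rw [L.mon_Ef, mon_zero, map_one, one_mul, one_mul]
  have h3 : aeval L.y (L.cF μ (Sum.inr false)) * mon L.τ (L.xF μ (Sum.inr false)) = 0 := by
    show aeval L.y (0 : MvPolynomial (Va L.n d) (ZMod p)) * _ = 0
    rw [map_zero, zero_mul]
  rw [Finset.sum_congr rfl fun i _ => h1 i, h2, h3, Finset.sum_neg_distrib, ← L.lin μ]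
  ring

theorem rel_W (c : Fin r) : ∑ s, aeval L.y (L.cW c s) * mon L.τ (L.xW c s) = 0 := by
  rw [sum_Ts]
  simp only [LD.cW, LD.xW, Sum.elim_inl, Sum.elim_inr, cond_true, cond_false,
    map_zero, zero_mul, Finset.sum_const_zero, zero_add, map_one, one_mul]
  rw [mon_smul, L.mon_Ew, zpow_natCast, L.KM, L.mon_Er, map_neg, map_one]; ring

end Rel

/-- The chart. -/
structure Cx (L : LD p V A Λ d m Nw ew M) (M' : ℕ) (C : Cone (Ix A Λ r)) : Prop where
  hC : IsCone C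
  hb : ∀ j, V.valuation (mon L.τ (C.b j)) ≤ 1
  hS : ∀ u ∈ BX (Ix A Λ r) M', ∀ u' ∈ BX (Ix A Λ r) M', Sgn C (u - u')
  h1 : 1 ≤ M'
  hM : M ≤ M'
  hN : ∀ c, Nw c ≤ M' ∧ Nw c * M ≤ M'

section Mem

variable {C : Cone (Ix A Λ r)}

theorem Ef_mem (h : Cx L M' C) {κ : A → ℤ} (hκ : ∀ a, |κ a| ≤ M) (μ : Λ) :
    L.Ef κ μ ∈ BX (Ix A Λ r) M' := by
  rw [mem_BX]
  rintro (a | ν | c)
  · exact (hκ a).trans (by exact_mod_cast h.hM)
  · show |(Pi.single μ 1 : Λ → ℤ) ν| ≤ _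
    rw [Pi.single_apply]
    split_ifs
    · rw [abs_one]; exact_mod_cast h.h1
    · rw [abs_zero]; positivity
  · show |(0 : ℤ)| ≤ _
    rw [abs_zero]; positivity

theorem Er_mem (h : Cx L M' C) (c : Fin r) : L.Er c ∈ BX (Ix A Λ r) M' := by
  rw [mem_BX]
  rintro (a | ν | c')
  · show |(0 : ℤ)| ≤ _
    rw [abs_zero]; positivity
  · exact (L.eM c ν).trans (by exact_mod_cast h.hM)
  · show |(0 : ℤ)| ≤ _
    rw [abs_zero]; positivity

theorem Ew_mem (h : Cx L M' C) (c : Fin r) : (Nw c : ℤ) • L.Ew c ∈ BX (Ix A Λ r) M' := by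
  rw [mem_BX]
  obtain ⟨h1, h2⟩ := h.hN c
  rintro (a | ν | c')
  · show |(Nw c : ℤ) * 0| ≤ _
    rw [mul_zero, abs_zero]; positivity
  · show |(Nw c : ℤ) * (-(M : ℤ))| ≤ _
    rw [mul_neg, abs_neg, ← Nat.cast_mul, Nat.abs_cast]
    exact_mod_cast h2
  · show |(Nw c : ℤ) * (Pi.single c 1 : Fin r → ℤ) c'| ≤ _
    rw [Pi.single_apply]
    split_ifs
    · rw [mul_one, Nat.abs_cast]
      exact_mod_cast h1
    · rw [mul_zero, abs_zero]; positivity

theorem xI_mem (h : Cx L M' C) (a : A) (c : Ts (Fin m)) : L.xI a c ∈ BX (Ix A Λ r) M' := by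
  rcases c with c | _ | _
  · exact zero_mem_BX
  · exact zero_mem_BX
  · exact single_one_mem_BX _ h.h1

theorem xP_mem (h : Cx L M' C) (c : Ts (Fin m)) : L.xP c ∈ BX (Ix A Λ r) M' := by
  rcases c with c | _ | _
  · exact zero_mem_BX
  · exact zero_mem_BX
  · exact single_one_mem_BX _ h.h1

theorem xF_mem (h : Cx L M' C) (μ : Λ) (c : Ts (Fin m)) : L.xF μ c ∈ BX (Ix A Λ r) M' := by
  rcases c with i | _ | _
  · exact Ef_mem h (L.κM μ i) _
  · exact zero_mem_BX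
  · exact Ef_mem h (fun a => by rw [Pi.zero_apply, abs_zero]; positivity) _

theorem xW_mem (h : Cx L M' C) (c : Fin r) (s : Ts (Fin m)) : L.xW c s ∈ BX (Ix A Λ r) M' := by
  rcases s with s | _ | _
  · exact zero_mem_BX
  · exact Er_mem h c
  · exact Ew_mem h c

end Mem

end Pool.Agent.H87.RS
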