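import Pool.Agent.H87.RS.LB

/-!
# The differentials of the relations of a chart
-/

set_option autoImplicit false
set_option linter.unusedSectionVars false

namespace Pool.Agent.H87.RS

open MvPolynomial IsLocalRing Pool.Agent.H96.Reg Pool.Agent.H96.VL Pool.Agent.H96.W
open Pool.Agent.H96.W2 (BX mem_BX zero_mem_BX single_mem_BX single_one_mem_BX neg_mem_BX)
open Pool.Agent.H96.S (Va Ndg Ts sum_Ts cond_t cond_f zc0 zc_ne resv_aevalp sum_single_eq
  sum_zero_eq)

variable {p : ℕ} [Fact p.Prime] {K : Type} [Field K] [Algebra (ZMod p) K]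
  {V : ValuationSubring K} {A Λ : Type} [Fintype A] [DecidableEq A] [Fintype Λ] [DecidableEq Λ]
  {d m r : ℕ} {Nw : Fin r → ℕ} {ew : Fin r → Λ → ℤ} {M M' : ℕ} {L : LD p V A Λ d m Nw ew M}
  [Algebra (ZMod p) (ResidueField V)] {C : Cone (Ix A Λ r)}

section RI

theorem LL_I_none (h : Cx L M' C) {a : A} (hs : L.l a = none) :
    LL V L.τ L.y C (L.cI a) (L.xI a) (Sum.inl a) ≠ 0 := by
  classical
  refine LL_ne_zero (Sum.inr true) ?_ ?_ ?_ ?_
  · rintro (c | _ | _) hc
    · exact Or.inl rfl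
    · exact Or.inr (Or.inr (zc0 V))
    · exact absurd rfl hc
  · show aeval _ (1 : MvPolynomial (Va L.n d) (ZMod p)) ≠ 0
    rw [map_one]; exact one_ne_zero
  · refine ee_ne_zero L.τ_ne_zero h.hC h.hb
      (fun c _ c' _ => h.hS _ (xI_mem h a c) _ (xI_mem h a c'))
      (show L.cI a (Sum.inr true) ≠ 0 from one_ne_zero) ?_
    rintro (c | _ | _) hc
    · exact absurd rfl hc
    · show V.valuation (mon L.τ 0) ≤ V.valuation (mon L.τ (Pi.single (Sum.inl a) 1))
      rw [mon_zero, mon_single, L.τ_a, L.l0 _ hs]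
    · exact le_rfl
  · show (((Pi.single (Sum.inl a) 1 : Ix A Λ r → ℤ) (Sum.inl a) : ℤ) : ResidueField V) ≠ 0
    rw [Pi.single_eq_same, Int.cast_one]
    exact one_ne_zero

theorem LL_I_of_ne {a : A} {α : Ix A Λ r} (hα : α ≠ Sum.inl a) :
    LL V L.τ L.y C (L.cI a) (L.xI a) α = 0 := by
  apply LL_eq_zero
  rintro (c | _ | _)
  · exact Or.inl rfl
  · exact Or.inr (Or.inr (zc0 V))
  · right; right
    show (((Pi.single (Sum.inl a) 1 : Ix A Λ r → ℤ) α : ℤ) : ResidueField V) = 0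
    rw [Pi.single_eq_of_ne hα, Int.cast_zero]

theorem cI_false_ne (a : A) : L.cI a (Sum.inr false) ≠ 0 := by
  show ((L.l a).elim (-1) fun x => -X (Sum.inr x) : MvPolynomial (Va L.n d) (ZMod p)) ≠ 0
  cases L.l a with
  | none => exact neg_ne_zero.mpr one_ne_zero
  | some x => exact neg_ne_zero.mpr (X_ne_zero _)

theorem vt_lt {a : A} (ha : L.l a ≠ none) : V.valuation (L.t a) < 1 := by
  cases h : L.l a with
  | none => exact absurd h ha
  | some c => exact (L.l1 a c h).1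

theorem TT_I_none {a : A} (hs : L.l a = none) (l : Va L.n d) :
    TT V L.τ L.y C (L.cI a) (L.xI a) l = 0 := by
  apply TT_eq_zero
  rintro (c | _ | _)
  · exact map_zero _
  · show pderiv l ((L.l a).elim (-1) fun x => -X (Sum.inr x) :
      MvPolynomial (Va L.n d) (ZMod p)) = 0
    rw [hs]
    show pderiv l (-1 : MvPolynomial (Va L.n d) (ZMod p)) = 0
    rw [map_neg, ← MvPolynomial.C_1, pderiv_C, neg_zero]
  · show pderiv l (1 : MvPolynomial (Va L.n d) (ZMod p)) = 0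
    rw [← MvPolynomial.C_1, pderiv_C]

theorem TT_I_some (h : Cx L M' C) {a : A} {x : Fin d} (hs : L.l a = some x) :
    ∃ w : ResidueField V, w ≠ 0 ∧
    ∀ l, TT V L.τ L.y C (L.cI a) (L.xI a) l = if l = Sum.inr x then w else 0 := by
  classical
  have hs' : L.l a ≠ none := by rw [hs]; exact Option.some_ne_none x
  refine ⟨-ee V L.τ C (mrel C (L.cI a) (L.xI a)) (Sum.inr false), neg_ne_zero.mpr ?_,
    fun l => ?_⟩
  · refine ee_ne_zero L.τ_ne_zero h.hC h.hb
      (fun c _ c' _ => h.hS _ (xI_mem h a c) _ (xI_mem h a c'))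
      (cI_false_ne a) ?_
    rintro (c | _ | _) hc
    · exact absurd rfl hc
    · exact le_rfl
    · show V.valuation (mon L.τ (Pi.single (Sum.inl a) 1)) ≤ V.valuation (mon L.τ 0)
      rw [mon_zero, mon_single, L.τ_a, map_one]
      exact (vt_lt hs').le
  · rw [TT_eq_single (Sum.inr false)]
    · have h1 : L.cI a (Sum.inr false) = -X (Sum.inr x) := by
        show ((L.l a).elim (-1) fun x => -X (Sum.inr x) :
          MvPolynomial (Va L.n d) (ZMod p)) = _
        rw [hs]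
        rfl
      rw [h1, map_neg, pderiv_X, Pi.single_apply]
      by_cases hl : l = Sum.inr x
      · rw [if_pos hl.symm, if_pos hl, map_neg, map_one, neg_one_mul]
      · rw [if_neg (Ne.symm hl), if_neg hl, neg_zero, map_zero, zero_mul]
    · rintro (c | _ | _) hc
      · exact map_zero _
      · exact absurd rfl hc
      · show pderiv l (1 : MvPolynomial (Va L.n d) (ZMod p)) = 0
        rw [← MvPolynomial.C_1, pderiv_C]

theorem TT_I_of (h : Cx L M' C) (a : A) {l : Va L.n d}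
    (hl : ∀ x, L.l a = some x → l ≠ Sum.inr x) :
    TT V L.τ L.y C (L.cI a) (L.xI a) l = 0 := by
  cases hs : L.l a with
  | none => exact TT_I_none hs l
  | some x =>
    obtain ⟨w, -, hw⟩ := TT_I_some (L := L) h hs
    rw [hw, if_neg (hl x hs)]

end RI

section RG

theorem LL_0 (c : Ts (Fin m) → MvPolynomial (Va L.n d) (ZMod p)) (α : Ix A Λ r) :
    LL V L.τ L.y C c 0 α = 0 := by
  apply LL_eq_zero
  intro s
  exact Or.inr (Or.inr (zc0 V))

theorem TT_G (j : Fin L.n) (l : Va L.n d) :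
    TT V L.τ L.y C (L.cG j) 0 l = aeval (fun l => resv V (L.y l)) (pderiv l (L.G j)) := by
  classical
  rw [TT_eq_single (Sum.inr false)]
  · have h1 : L.cG j (Sum.inr false) = L.G j := rfl
    by_cases h2 : L.cG j (Sum.inr false) = 0
    · rw [← h1, h2, map_zero, map_zero, zero_mul]
    · have he : ee V L.τ C (mrel C (L.cG j) 0) (Sum.inr false) = 1 :=
        ee_eq_one (fun s _ => rfl) h2
      rw [he, mul_one, h1]
  · rintro (s | _ | _) hs
    · exact map_zero _
    · exact absurd rfl hs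
    · exact map_zero _

end RG

section RP

theorem LL_P_piv (h : Cx L M' C) :
    LL V L.τ L.y C L.cP L.xP (Sum.inr (Sum.inl L.piv)) ≠ 0 := by
  classical
  refine LL_ne_zero (Sum.inr true) ?_ ?_ ?_ ?_
  · rintro (c | _ | _) hc
    · exact Or.inl rfl
    · exact Or.inr (Or.inr (zc0 V))
    · exact absurd rfl hc
  · show aeval _ (1 : MvPolynomial (Va L.n d) (ZMod p)) ≠ 0
    rw [map_one]; exact one_ne_zero
  · refine ee_ne_zero L.τ_ne_zero h.hC h.hb
      (fun c _ c' _ => h.hS _ (xP_mem h c) _ (xP_mem h c'))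
      (show L.cP (Sum.inr true) ≠ 0 from one_ne_zero) ?_
    rintro (c | _ | _) hc
    · exact absurd rfl hc
    · show V.valuation (mon L.τ 0) ≤ V.valuation (mon L.τ (Pi.single (Sum.inr (Sum.inl L.piv)) 1))
      rw [mon_zero, mon_single, L.τ_f, L.σp]
    · exact le_rfl
  · show (((Pi.single (Sum.inr (Sum.inl L.piv)) 1 : Ix A Λ r → ℤ) (Sum.inr (Sum.inl L.piv)) : ℤ) :
      ResidueField V) ≠ 0
    rw [Pi.single_eq_same, Int.cast_one]
    exact one_ne_zero

theorem LL_P_of_ne {α : Ix A Λ r} (hα : α ≠ Sum.inr (Sum.inl L.piv)) :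
    LL V L.τ L.y C L.cP L.xP α = 0 := by
  apply LL_eq_zero
  rintro (c | _ | _)
  · exact Or.inl rfl
  · exact Or.inr (Or.inr (zc0 V))
  · right; right
    show (((Pi.single (Sum.inr (Sum.inl L.piv)) 1 : Ix A Λ r → ℤ) α : ℤ) : ResidueField V) = 0
    rw [Pi.single_eq_of_ne hα, Int.cast_zero]

theorem TT_P (l : Va L.n d) : TT V L.τ L.y C L.cP L.xP l = 0 := by
  apply TT_eq_zero
  rintro (c | _ | _)
  · exact map_zero _
  · show pderiv l (-1 : MvPolynomial (Va L.n d) (ZMod p)) = 0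
    rw [map_neg, ← MvPolynomial.C_1, pderiv_C, neg_zero]
  · show pderiv l (1 : MvPolynomial (Va L.n d) (ZMod p)) = 0
    rw [← MvPolynomial.C_1, pderiv_C]

end RP

section RF

/-- The size of the terms of a linear relation. -/
theorem xF_dom (μ : Λ) (s : Ts (Fin m)) (hs : L.cF μ s ≠ 0) :
    V.valuation (mon L.τ (L.xF μ s)) ≤ V.valuation (L.σ μ) := by
  rcases s with i | _ | _
  · show V.valuation (mon L.τ (L.Ef (L.κ μ i) (L.β i))) ≤ _
    rw [L.mon_Ef]
    refine L.dom μ i ?_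
    rcases Bool.eq_false_or_eq_true (L.on μ i) with h | h
    · exact h
    · exfalso
      apply hs
      show cond (L.on μ i) (-X (L.q μ i)) 0 = 0
      rw [cond_f h]
  · exact absurd rfl hs
  · show V.valuation (mon L.τ (L.Ef 0 μ)) ≤ _
    rw [L.mon_Ef, mon_zero, one_mul]

theorem mon_xF_true (μ : Λ) : mon L.τ (L.xF μ (Sum.inr true)) = L.σ μ := by
  show mon L.τ (L.Ef 0 μ) = _
  rw [L.mon_Ef, mon_zero, one_mul]

theorem LL_F_self (h : Cx L M' C) {μ : Λ} (hμ : ∀ i, L.β i ≠ μ) :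
    LL V L.τ L.y C (L.cF μ) (L.xF μ) (Sum.inr (Sum.inl μ)) ≠ 0 := by
  classical
  refine LL_ne_zero (Sum.inr true) ?_ ?_ ?_ ?_
  · rintro (i | _ | _) hc
    · right; right
      show (((Pi.single (L.β i) 1 : Λ → ℤ) μ : ℤ) : ResidueField V) = 0
      rw [Pi.single_eq_of_ne (Ne.symm (hμ i)), Int.cast_zero]
    · exact Or.inl rfl
    · exact absurd rfl hc
  · show aeval _ (1 : MvPolynomial (Va L.n d) (ZMod p)) ≠ 0
    rw [map_one]; exact one_ne_zero
  · refine ee_ne_zero L.τ_ne_zero h.hC h.hb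
      (fun c _ c' _ => h.hS _ (xF_mem h μ c) _ (xF_mem h μ c'))
      (show L.cF μ (Sum.inr true) ≠ 0 from one_ne_zero) fun s hs => ?_
    rw [mon_xF_true]
    exact xF_dom μ s hs
  · show (((Pi.single μ 1 : Λ → ℤ) μ : ℤ) : ResidueField V) ≠ 0
    rw [Pi.single_eq_same, Int.cast_one]
    exact one_ne_zero

theorem LL_F_of_ne {μ ν : Λ} (hμν : ν ≠ μ) (hν : ∀ i, L.β i ≠ ν) :
    LL V L.τ L.y C (L.cF μ) (L.xF μ) (Sum.inr (Sum.inl ν)) = 0 := by
  apply LL_eq_zero
  rintro (i | _ | _)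
  · right; right
    show (((Pi.single (L.β i) 1 : Λ → ℤ) ν : ℤ) : ResidueField V) = 0
    rw [Pi.single_eq_of_ne (Ne.symm (hν i)), Int.cast_zero]
  · exact Or.inl rfl
  · right; right
    show (((Pi.single μ 1 : Λ → ℤ) ν : ℤ) : ResidueField V) = 0
    rw [Pi.single_eq_of_ne hμν, Int.cast_zero]

theorem LL_F_w (μ : Λ) (c : Fin r) :
    LL V L.τ L.y C (L.cF μ) (L.xF μ) (Sum.inr (Sum.inr c)) = 0 := by
  apply LL_eq_zero
  rintro (i | _ | _)
  · exact Or.inr (Or.inr (zc0 V))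
  · exact Or.inl rfl
  · exact Or.inr (Or.inr (zc0 V))

theorem cF_inl_ne {μ : Λ} {i : Fin m} (hi : L.on μ i = true) : L.cF μ (Sum.inl i) ≠ 0 := by
  show cond (L.on μ i) (-X (L.q μ i)) 0 ≠ 0
  rw [cond_t hi]
  exact neg_ne_zero.mpr (X_ne_zero _)

/-- The direction of a term of the full size. -/
theorem LL_F_top (h : Cx L M' C) {μ : Λ} {i : Fin m} (hi : L.on μ i = true)
    (hv : V.valuation (mon L.t (L.κ μ i) * L.σ (L.β i)) = V.valuation (L.σ μ))
    (hμ : L.β i ≠ μ) :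
    LL V L.τ L.y C (L.cF μ) (L.xF μ) (Sum.inr (Sum.inl (L.β i))) ≠ 0 := by
  classical
  refine LL_ne_zero (Sum.inl i) ?_ ?_ ?_ ?_
  · rintro (i' | _ | _) hc
    · right; right
      show (((Pi.single (L.β i') 1 : Λ → ℤ) (L.β i) : ℤ) : ResidueField V) = 0
      rw [Pi.single_eq_of_ne (fun h' => hc (by rw [L.βi h'])), Int.cast_zero]
    · exact Or.inl rfl
    · right; right
      show (((Pi.single μ 1 : Λ → ℤ) (L.β i) : ℤ) : ResidueField V) = 0
      rw [Pi.single_eq_of_ne hμ, Int.cast_zero]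
  · show aeval _ (cond (L.on μ i) (-X (L.q μ i)) 0 : MvPolynomial (Va L.n d) (ZMod p)) ≠ 0
    rw [cond_t hi, map_neg, aeval_X]
    exact neg_ne_zero.mpr ((resv_ne_zero_iff (L.vy _)).mpr (L.vq μ i))
  · refine ee_ne_zero L.τ_ne_zero h.hC h.hb
      (fun c _ c' _ => h.hS _ (xF_mem h μ c) _ (xF_mem h μ c'))
      (cF_inl_ne hi) fun s hs => ?_
    refine (xF_dom μ s hs).trans ?_
    show _ ≤ V.valuation (mon L.τ (L.Ef (L.κ μ i) (L.β i)))
    rw [L.mon_Ef, hv]
  · show (((Pi.single (L.β i) 1 : Λ → ℤ) (L.β i) : ℤ) : ResidueField V) ≠ 0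
    rw [Pi.single_eq_same, Int.cast_one]
    exact one_ne_zero

end RF

section RW

theorem LL_W_self (h : Cx L M' C) (c : Fin r) :
    LL V L.τ L.y C (L.cW c) (L.xW c) (Sum.inr (Sum.inr c)) ≠ 0 := by
  classical
  refine LL_ne_zero (Sum.inr true) ?_ ?_ ?_ ?_
  · rintro (s | _ | _) hc
    · exact Or.inl rfl
    · exact Or.inr (Or.inr (zc0 V))
    · exact absurd rfl hc
  · show aeval _ (1 : MvPolynomial (Va L.n d) (ZMod p)) ≠ 0
    rw [map_one]; exact one_ne_zero
  · refine ee_ne_zero L.τ_ne_zero h.hC h.hb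
      (fun s _ s' _ => h.hS _ (xW_mem h c s) _ (xW_mem h c s'))
      (show L.cW c (Sum.inr true) ≠ 0 from one_ne_zero) ?_
    have h1 : mon L.τ (L.xW c (Sum.inr true)) = mon L.τ (L.xW c (Sum.inr false)) := by
      show mon L.τ ((Nw c : ℤ) • L.Ew c) = mon L.τ (L.Er c)
      rw [mon_smul, L.mon_Ew, zpow_natCast, L.KM, L.mon_Er]
    rintro (s | _ | _) hs
    · exact absurd rfl hs
    · rw [h1]
    · exact le_rfl
  · show (((Nw c : ℤ) * (Pi.single c 1 : Fin r → ℤ) c : ℤ) : ResidueField V) ≠ 0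
    rw [Pi.single_eq_same, mul_one, Int.cast_natCast]
    exact natCast_ne V (L.Nw0 c)

theorem LL_W_of_ne {c c' : Fin r} (hc : c' ≠ c) :
    LL V L.τ L.y C (L.cW c) (L.xW c) (Sum.inr (Sum.inr c')) = 0 := by
  apply LL_eq_zero
  rintro (s | _ | _)
  · exact Or.inl rfl
  · exact Or.inr (Or.inr (zc0 V))
  · right; right
    show (((Nw c : ℤ) * (Pi.single c 1 : Fin r → ℤ) c' : ℤ) : ResidueField V) = 0
    rw [Pi.single_eq_of_ne hc, mul_zero, Int.cast_zero]

end RW

end Pool.Agent.H87.RS
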