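import Pool.Agent.H87.RS.LC

/-!
# Local regularity
-/

set_option autoImplicit false
set_option linter.unusedSectionVars false

namespace Pool.Agent.H87.RS

open MvPolynomial IsLocalRing Pool.Agent.H96.Reg Pool.Agent.H96.VL Pool.Agent.H96.W
open Pool.Agent.H96.W2 (BX mem_BX zero_mem_BX single_mem_BX single_one_mem_BX neg_mem_BX)
open Pool.Agent.H96.S (Va Ndg Ts sum_Ts cond_t cond_f zc0 zc_ne resv_aevalp sum_single_eq
  sum_zero_eq)

variable {p : ℕ} [Fact p.Prime] {K : Type} [Field K] [Algebra (ZMod p) K]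
  {V : ValuationSubring K} {A Λ : Type} [Fintype A] [DecidableEq A] [Fintype Λ] [DecidableEq Λ]
  {d m r : ℕ} {Nw : Fin r → ℕ} {ew : Fin r → Λ → ℤ} {M M' : ℕ} {L : LD p V A Λ d m Nw ew M}
  [Algebra (ZMod p) (ResidueField V)] {C : Cone (Ix A Λ r)}

/-- The forms outside the basis. -/
abbrev LD.Nb (L : LD p V A Λ d m Nw ew M) : Type := {μ : Λ // ∀ i, L.β i ≠ μ}

/-- The index set of the relations. -/
abbrev LD.Rw (L : LD p V A Λ d m Nw ew M) : Type :=
  A ⊕ (Fin L.n ⊕ (Unit ⊕ (L.Nb ⊕ Fin r)))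

/-- The coefficients of the relations. -/
noncomputable def LD.cc (L : LD p V A Λ d m Nw ew M) :
    L.Rw → Ts (Fin m) → MvPolynomial (Va L.n d) (ZMod p) :=
  Sum.elim L.cI (Sum.elim L.cG (Sum.elim (fun _ => L.cP)
    (Sum.elim (fun μ => L.cF μ) L.cW)))

/-- The exponents of the relations. -/
noncomputable def LD.xx (L : LD p V A Λ d m Nw ew M) : L.Rw → Ts (Fin m) → Ix A Λ r → ℤ :=
  Sum.elim L.xI (Sum.elim (fun _ => 0) (Sum.elim (fun _ => L.xP)
    (Sum.elim (fun μ => L.xF μ) L.xW)))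

theorem xx_mem (h : Cx L M' C) (j : L.Rw) (s : Ts (Fin m)) : L.xx j s ∈ BX (Ix A Λ r) M' := by
  rcases j with i | s' | c | μ | j
  · exact xI_mem h i _
  · exact zero_mem_BX
  · exact xP_mem h _
  · exact xF_mem h _ _
  · exact xW_mem h _ _

theorem xx_rel (j : L.Rw) :
    ∑ s, aeval L.y (L.cc j s) * mon L.τ (L.xx j s) = 0 := by
  rcases j with i | s | c | μ | j
  · exact rel_I i
  · exact rel_G s
  · exact rel_P
  · exact rel_F _
  · exact rel_W j

theorem sum_Rw {β : Type} [AddCommMonoid β] (f : L.Rw → β) : ∑ j, f j =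
    ∑ s, f (Sum.inl s) + (∑ s, f (Sum.inr (Sum.inl s)) + (f (Sum.inr (Sum.inr (Sum.inl ()))) +
      (∑ μ, f (Sum.inr (Sum.inr (Sum.inr (Sum.inl μ)))) +
        ∑ c, f (Sum.inr (Sum.inr (Sum.inr (Sum.inr c))))))) := by
  have h1 : ∀ g : Unit → β, ∑ u, g u = g () := fun g => by
    rw [Finset.univ_unique, Finset.sum_singleton]
  rw [Fintype.sum_sum_type, Fintype.sum_sum_type, Fintype.sum_sum_type,
    Fintype.sum_sum_type, h1]

theorem card_Nb (L : LD p V A Λ d m Nw ew M) :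
    Fintype.card Λ = Fintype.card L.Nb + m := by
  classical
  have h1 : Fintype.card {μ : Λ // ¬ ∀ i, L.β i ≠ μ} = m := by
    have h2 : ∀ i, ¬ ∀ i', L.β i' ≠ L.β i := fun i h => h i rfl
    have h3 : Function.Bijective (fun i : Fin m => (⟨L.β i, h2 i⟩ : {μ : Λ // ¬ ∀ i, L.β i ≠ μ})) := by
      refine ⟨fun i j hij => L.βi (congrArg Subtype.val hij), fun ⟨μ, hμ⟩ => ?_⟩
      push Not at hμ
      obtain ⟨i, hi⟩ := hμ
      exact ⟨i, Subtype.ext hi⟩
    rw [← Fintype.card_of_bijective h3, Fintype.card_fin]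
  have h4 := Fintype.card_congr (Equiv.sumCompl fun μ : Λ => ∀ i, L.β i ≠ μ)
  rw [Fintype.card_sum, h1] at h4
  exact h4.symm

theorem card_eq (L : LD p V A Λ d m Nw ew M) (hm : 1 ≤ m) :
    Fintype.card (Ix A Λ r) + Fintype.card (Va L.n d) =
    (d + (m - 1)) + Fintype.card L.Rw := by
  have h1 := card_Nb L
  have h5 : Fintype.card (Ix A Λ r) = Fintype.card A + (Fintype.card Λ + r) := by
    rw [Fintype.card_sum, Fintype.card_sum, Fintype.card_fin]
  have h6 : Fintype.card (Va L.n d) = L.n + d := by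
    rw [Fintype.card_sum, Fintype.card_fin, Fintype.card_fin]
  have h7 : Fintype.card L.Rw = Fintype.card A + (L.n + (1 + (Fintype.card L.Nb + r))) := by
    rw [Fintype.card_sum, Fintype.card_sum, Fintype.card_sum, Fintype.card_sum,
      Fintype.card_fin, Fintype.card_fin, Fintype.card_unit]
  rw [h5, h6, h7]
  omega

theorem D_ne (L : LD p V A Λ d m Nw ew M) :
    aeval (fun s => resv V (L.y s)) L.D ≠ 0 := by
  have h3 := resv_aevalp V L.y L.vy L.D
  rw [← h3.2, resv_ne_zero_iff h3.1]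
  exact L.vD

/-- **Independence.** -/
theorem indep (h : Cx L M' C) (a : L.Rw → ResidueField V)
    (hLα : ∀ α, ∑ j, a j * LL V L.τ L.y C (L.cc j) (L.xx j) α = 0)
    (hTl : ∀ l, ∑ j, a j * TT V L.τ L.y C (L.cc j) (L.xx j) l = 0) : ∀ j, a j = 0 := by
  classical
  obtain ⟨aI, haI⟩ : ∃ f : A → ResidueField V, f = fun i => a (Sum.inl i) := ⟨_, rfl⟩
  obtain ⟨aG, haG⟩ : ∃ f : Fin L.n → ResidueField V,
    f = fun s => a (Sum.inr (Sum.inl s)) := ⟨_, rfl⟩
  obtain ⟨aP, haP⟩ : ∃ f : ResidueField V,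
    f = a (Sum.inr (Sum.inr (Sum.inl ()))) := ⟨_, rfl⟩
  obtain ⟨aF, haF⟩ : ∃ f : L.Nb → ResidueField V,
    f = fun μ => a (Sum.inr (Sum.inr (Sum.inr (Sum.inl μ)))) := ⟨_, rfl⟩
  obtain ⟨aW, haW⟩ : ∃ f : Fin r → ResidueField V,
    f = fun s => a (Sum.inr (Sum.inr (Sum.inr (Sum.inr s)))) := ⟨_, rfl⟩
  have hL : ∀ α, ∑ i, aI i * LL V L.τ L.y C (L.cI i) (L.xI i) α +
      (∑ s, aG s * LL V L.τ L.y C (L.cG s) 0 α +
      (aP * LL V L.τ L.y C L.cP L.xP α +
      (∑ μ : L.Nb, aF μ * LL V L.τ L.y C (L.cF μ) (L.xF μ) α +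
      ∑ c, aW c * LL V L.τ L.y C (L.cW c) (L.xW c) α))) = 0 := by
    intro α
    have := hLα α
    rw [sum_Rw] at this
    rw [haI, haG, haP, haF, haW]
    exact this
  have hT : ∀ l, ∑ i, aI i * TT V L.τ L.y C (L.cI i) (L.xI i) l +
      (∑ s, aG s * TT V L.τ L.y C (L.cG s) 0 l +
      (aP * TT V L.τ L.y C L.cP L.xP l +
      (∑ μ : L.Nb, aF μ * TT V L.τ L.y C (L.cF μ) (L.xF μ) l +
      ∑ c, aW c * TT V L.τ L.y C (L.cW c) (L.xW c) l))) = 0 := by
    intro l
    have := hTl l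
    rw [sum_Rw] at this
    rw [haI, haG, haP, haF, haW]
    exact this
  suffices hall : (∀ i, aI i = 0) ∧ (∀ s, aG s = 0) ∧ aP = 0 ∧ (∀ μ, aF μ = 0) ∧
      (∀ c, aW c = 0) by
    obtain ⟨h1, h2, h3, h4, h5⟩ := hall
    rw [haI] at h1
    rw [haG] at h2
    rw [haP] at h3
    rw [haF] at h4
    rw [haW] at h5
    rintro (i | s | c | μ | j)
    exacts [h1 i, h2 s, h3, h4 μ, h5 j]
  clear haI haG haP haF haW hLα hTl
  -- the Kummer coordinates
  have hW : ∀ c, aW c = 0 := by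
    intro c
    have h1 := hL (Sum.inr (Sum.inr c))
    rw [sum_zero_eq _ (fun i => by rw [LL_I_of_ne Sum.inr_ne_inl, mul_zero]),
      sum_zero_eq (fun s : Fin L.n => aG s * _) (fun s => by
        rw [LL_0, mul_zero]), LL_P_of_ne (by
          intro h'
          exact Sum.inr_ne_inl (Sum.inr_injective h')), mul_zero,
      sum_zero_eq (fun μ : L.Nb => aF μ * _) (fun μ => by rw [LL_F_w, mul_zero]), zero_add,
      zero_add, zero_add, zero_add,
      sum_single_eq _ c fun c' hc => by rw [LL_W_of_ne (Ne.symm hc), mul_zero]] at h1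
    exact (mul_eq_zero.mp h1).resolve_right (LL_W_self h c)
  have hL1 : ∀ α, ∑ i, aI i * LL V L.τ L.y C (L.cI i) (L.xI i) α +
      (aP * LL V L.τ L.y C L.cP L.xP α +
        ∑ μ : L.Nb, aF μ * LL V L.τ L.y C (L.cF μ) (L.xF μ) α) = 0 := by
    intro α
    have := hL α
    rwa [sum_zero_eq (fun s : Fin L.n => aG s * _) (fun s => by
        rw [LL_0, mul_zero]), sum_zero_eq (fun j => aW j * _) (fun j => by rw [hW, zero_mul]),
      add_zero, zero_add] at this
  -- the forms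
  have hF1 : ∀ μ : L.Nb, (μ : Λ) ≠ L.piv → aF μ = 0 := by
    intro μ hμ
    have h1 := hL1 (Sum.inr (Sum.inl μ))
    rw [sum_zero_eq _ (fun i => by rw [LL_I_of_ne Sum.inr_ne_inl, mul_zero]), zero_add,
      LL_P_of_ne (by
        intro h'
        exact hμ (Sum.inl_injective (Sum.inr_injective h'))), mul_zero, zero_add,
      sum_single_eq _ μ fun ν hν => by
        rw [LL_F_of_ne (fun h' => hν (Subtype.ext h'.symm)) μ.2, mul_zero]] at h1
    exact (mul_eq_zero.mp h1).resolve_right (LL_F_self h μ.2)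
  have hF : ∀ μ : L.Nb, aF μ = 0 := by
    intro μ
    by_cases hμ : (μ : Λ) = L.piv
    swap
    · exact hF1 μ hμ
    obtain ⟨i, hi, hv⟩ := L.exists_top μ
    have h1 := hL1 (Sum.inr (Sum.inl (L.β i)))
    rw [sum_zero_eq _ (fun i => by rw [LL_I_of_ne Sum.inr_ne_inl, mul_zero]), zero_add,
      LL_P_of_ne (by
        intro h'
        exact μ.2 i ((Sum.inl_injective (Sum.inr_injective h')).trans hμ.symm)), mul_zero, zero_add,
      sum_single_eq _ μ fun ν hν => by
        rw [hF1 ν (fun h' => hν (Subtype.ext (h'.trans hμ.symm))), zero_mul]] at h1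
    exact (mul_eq_zero.mp h1).resolve_right (LL_F_top h hi hv (μ.2 i))
  have hP : aP = 0 := by
    have h1 := hL1 (Sum.inr (Sum.inl L.piv))
    rw [sum_zero_eq _ (fun i => by rw [LL_I_of_ne Sum.inr_ne_inl, mul_zero]), zero_add,
      sum_zero_eq (fun μ : L.Nb => aF μ * _) (fun μ => by rw [hF, zero_mul]), add_zero] at h1
    exact (mul_eq_zero.mp h1).resolve_right (LL_P_piv h)
  have hT1 : ∀ l, ∑ i, aI i * TT V L.τ L.y C (L.cI i) (L.xI i) l +
      ∑ s, aG s * TT V L.τ L.y C (L.cG s) 0 l = 0 := by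
    intro l
    have := hT l
    rwa [hP, zero_mul, sum_zero_eq (fun μ : L.Nb => aF μ * _) (fun μ => by rw [hF, zero_mul]),
      sum_zero_eq (fun j => aW j * _) (fun j => by rw [hW, zero_mul]), add_zero, add_zero,
      add_zero] at this
  have hG : ∀ s, aG s = 0 := by
    refine L.ndg _ (fun s => resv V (L.y s)) (D_ne L) aG fun j => ?_
    have h1 := hT1 (Sum.inl j)
    rw [sum_zero_eq _ (fun s => by
        rw [TT_I_of h s (fun x _ => Sum.inl_ne_inr), mul_zero]), zero_add] at h1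
    rw [← h1]
    exact Finset.sum_congr rfl fun k _ => by rw [TT_G]
  have hL2 : ∀ α, ∑ i, aI i * LL V L.τ L.y C (L.cI i) (L.xI i) α = 0 := by
    intro α
    have h1 := hL1 α
    rwa [hP, zero_mul, zero_add, sum_zero_eq (fun μ : L.Nb => aF μ * _)
      (fun μ => by rw [hF, zero_mul]), add_zero] at h1
  have hT2 : ∀ l, ∑ i, aI i * TT V L.τ L.y C (L.cI i) (L.xI i) l = 0 := by
    intro l
    have h1 := hT1 l
    rwa [sum_zero_eq (fun s : Fin L.n => aG s * _) (fun s => by rw [hG, zero_mul]),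
      add_zero] at h1
  refine ⟨fun s => ?_, hG, hP, hF, hW⟩
  cases hs : L.l s with
  | none =>
    have h1 := hL2 (Sum.inl s)
    rw [sum_single_eq _ s fun s' hne => by
      rw [LL_I_of_ne (fun h' => hne (Sum.inl_injective h').symm), mul_zero]] at h1
    exact (mul_eq_zero.mp h1).resolve_right (LL_I_none h hs)
  | some x =>
    have h1 := hT2 (Sum.inr x)
    obtain ⟨w, hw0, hw⟩ := TT_I_some (L := L) h hs
    rw [sum_single_eq _ s fun s' hne => by
      rw [TT_I_of h s' (by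
        intro x' hx' h'
        apply hne
        rw [← Sum.inr_injective h'] at hx'
        exact L.linj s' s x hx' hs), mul_zero], hw, if_pos rfl] at h1
    exact (mul_eq_zero.mp h1).resolve_right hw0

/-- **Local regularity.** -/
theorem isRegular_local (h : Cx L M' C) (hm : 1 ≤ m)
    (halg : Algebra.IsAlgebraic (Algebra.adjoin (ZMod p)
      (Set.range (Sum.elim (fun j => mon L.τ (C.b j)) L.y))) K)
    (htr : ((d + (m - 1) : ℕ) : Cardinal.{0}) ≤ Algebra.trdeg (ZMod p) K) :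
    IsRegularLocalRing (vloc V (Algebra.adjoin ℤ
      (Set.range (Sum.elim (fun j => mon L.τ (C.b j)) L.y)))) := by
  refine isRegular_of_mrel (ZMod.ringHom_surjective (Int.castRingHom (ZMod p))) V
    L.τ_ne_zero h.hC h.hb L.vy halg
    (fun j : L.Rw => mrel C (L.cc j) (L.xx j))
    (fun j => mrel_ok fun s _ s' _ => h.hS _ (xx_mem h j s) _ (xx_mem h j s'))
    xx_rel ?_ ?_
  · have h1 := card_eq L hm
    calc ((Fintype.card (Ix A Λ r) : Cardinal.{0}) + Fintype.card (Va L.n d)) =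
          ((Fintype.card (Ix A Λ r) + Fintype.card (Va L.n d) : ℕ) : Cardinal.{0}) := by
            push_cast; rfl
      _ = (((d + (m - 1)) + Fintype.card L.Rw : ℕ) : Cardinal.{0}) := by rw [h1]
      _ = ((d + (m - 1) : ℕ) : Cardinal.{0}) + Fintype.card L.Rw := by push_cast; rfl
      _ ≤ _ := by gcongr
  · intro a ha1 ha2
    exact indep h a ha1 ha2

end Pool.Agent.H87.RS
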